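import Pool.Agent.T9h84.WR.Final
import Pool.Agent.K7.H15.WR.Idx

set_option autoImplicit false

/-!
# Edge colourings of wreath products
-/

namespace Pool.Agent.T9h84.WR

open Finset Pool.Agent.X76.Wr

/-- the wreath product with `K₂` -/
theorem two_EC {W : Type} [Fintype W] (G' : SimpleGraph W) [DecidableRel G'.Adj] (D : ℕ)
    (hD : ∀ u, orb G' u + G'.degree u ≤ D) : EC D (wreath (⊤ : SimpleGraph Bool) G') := by
  classical
  refine inv_EC _ (fun p => (!p.1, p.2)) ?_ ?_ ?_ D ?_
  · rintro ⟨x, w⟩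
    simp
  · rintro ⟨x, w⟩ h
    have := congrArg Prod.fst h
    simp at this
  · rintro ⟨x, w⟩ ⟨y, w'⟩ h
    rcases h with ⟨h1, h2⟩ | ⟨h1, h2⟩
    · left
      refine ⟨?_, h2⟩
      show (!x) = !y
      rw [show x = y from h1]
    · right
      refine ⟨?_, h2⟩
      rw [SimpleGraph.top_adj] at h1 ⊢
      intro h3
      apply h1
      simpa using h3
  · rintro ⟨x, w⟩
    have h1 := wreath_degree (⊤ : SimpleGraph Bool) G' x w
    have h2 : (⊤ : SimpleGraph Bool).degree x = 1 := by
      rw [SimpleGraph.complete_graph_degree]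
      rfl
    rw [h2, one_mul] at h1
    have h3 : {p : Bool × W | (wreath (⊤ : SimpleGraph Bool) G').Adj (x, w) p ∧
        p ≠ (!x, w)} = (((wreath (⊤ : SimpleGraph Bool) G').neighborFinset (x, w)).erase
          (!x, w) : Set (Bool × W)) := by
      ext p
      simp only [Set.mem_ofPred_eq, coe_erase, Set.mem_sdiff, mem_coe,
        SimpleGraph.mem_neighborFinset, Set.mem_singleton_iff]
    show {p : Bool × W | (wreath (⊤ : SimpleGraph Bool) G').Adj (x, w) p ∧
        p ≠ (!x, w)}.ncard + 1 ≤ D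
    rw [h3, Set.ncard_coe_finset, card_erase_of_mem, SimpleGraph.card_neighborFinset_eq_degree, h1]
    · have := hD w
      have h4 := Pool.Agent.K7.H15.WR.orb_pos (G' := G') w
      omega
    · rw [SimpleGraph.mem_neighborFinset]
      right
      refine ⟨?_, SimpleGraph.Iso.refl, rfl⟩
      rw [SimpleGraph.top_adj]
      simp

/-- the case `Δ(G) = 1` -/
theorem one_EC {V W : Type} [Fintype V] [Fintype W] {G : SimpleGraph V} {G' : SimpleGraph W}
    [DecidableRel G'.Adj] {D : ℕ} (hG : EC 1 G) (hD : ∀ u, orb G' u + G'.degree u ≤ D) :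
    EC D (wreath G G') := by
  classical
  have huniq : ∀ x y z, G.Adj x y → G.Adj x z → y = z := by
    obtain ⟨c, hc⟩ := hG
    intro x y z hxy hxz
    by_contra hne
    have h1 := (hc x y hxy).2.1
    have h2 := (hc x z hxz).2.1
    exact (hc x y hxy).2.2 z hxz hne (by omega)
  let ν := Fintype.equivFin V
  let s : V → Bool := fun x => decide (∃ y, G.Adj x y ∧ ν x < ν y)
  have hs' : ∀ x y, G.Adj x y → ν x < ν y → s x ≠ s y := by
    intro x y hxy hlt
    have h1 : s x = true := decide_eq_true ⟨y, hxy, hlt⟩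
    have h2 : s y = false := by
      apply decide_eq_false
      rintro ⟨z, hz, hlt'⟩
      rw [huniq y z x hz hxy.symm] at hlt'
      exact absurd hlt (lt_asymm hlt')
    rw [h1, h2]
    simp
  have hs : ∀ x y, G.Adj x y → s x ≠ s y := by
    intro x y hxy
    rcases lt_trichotomy (ν x) (ν y) with h1 | h1 | h1
    · exact hs' x y hxy h1
    · exact absurd (ν.injective h1) (G.ne_of_adj hxy)
    · exact (hs' y x hxy.symm h1).symm
  obtain ⟨c, hc⟩ := two_EC G' D hD
  have hadj : ∀ p q : V × W, (wreath G G').Adj p q →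
      (wreath (⊤ : SimpleGraph Bool) G').Adj (s p.1, p.2) (s q.1, q.2) := by
    rintro ⟨x, w⟩ ⟨y, w'⟩ (⟨h1, h2⟩ | ⟨h1, h2⟩)
    · left
      exact ⟨congrArg s h1, h2⟩
    · right
      exact ⟨by rw [SimpleGraph.top_adj]; exact hs _ _ h1, h2⟩
  refine ⟨fun p q => c (s p.1, p.2) (s q.1, q.2), fun p q hpq => ?_⟩
  obtain ⟨h1, h2, h3⟩ := hc _ _ (hadj p q hpq)
  refine ⟨h1, h2, fun t hpt hqt => h3 _ (hadj p t hpt) ?_⟩
  intro h4
  have h5 : s q.1 = s t.1 := (Prod.mk.inj h4).1
  have h6 : q.2 = t.2 := (Prod.mk.inj h4).2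
  apply hqt
  refine Prod.ext ?_ h6
  rcases hpq with ⟨h7, -⟩ | ⟨h7, -⟩ <;> rcases hpt with ⟨h8, -⟩ | ⟨h8, -⟩
  · exact h7.symm.trans h8
  · exact absurd (by rw [h7, h5]) (hs _ _ h8)
  · exact absurd (by rw [h8, ← h5]) (hs _ _ h7)
  · exact huniq _ _ _ h7 h8

/-- **Edge colourings of wreath products.** -/
theorem wreath_main {V W : Type} [Fintype V] [Fintype W] {G : SimpleGraph V} {G' : SimpleGraph W}
    [DecidableRel G'.Adj] {d D : ℕ} (hd : 1 ≤ d) (hG : EC d G)
    (hD : ∀ u, d * orb G' u + G'.degree u ≤ D) : EC D (wreath G G') := by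
  classical
  rcases Nat.lt_or_ge d 2 with h | h
  · have h1 : d = 1 := by omega
    subst h1
    exact one_EC hG (fun u => by
      have := hD u
      rwa [one_mul] at this)
  · exact Pool.Agent.K7.H15.WR.main_EC hd hG hD (Or.inl h)

end Pool.Agent.T9h84.WR
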