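import Pool.Agent.T9h84.WR.Done

set_option autoImplicit false
set_option linter.unusedSectionVars false

/-!
# All uncoloured edges can be treated
-/

namespace Pool.Agent.T9h84.WR

open Finset

variable {V C : Type*} [DecidableEq V] [Fintype V] [Fintype C] [DecidableEq C]
  {A : V → V → Prop} {ι : V → V} {m : C → V → V} {a b v w z : V} {α β : C}
  {P : V → V → Prop} {r : V → V → C}

theorem Done.free (h : Col A ι m) (hD : Done A ι m P r)
    (hd : {w | A v w ∧ w ≠ ι v}.ncard + 1 ≤ Fintype.card C) :
    ∃ c, m c v = v ∧ ∀ w, P v w → r v w ≠ c := by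
  classical
  by_contra hcon
  push Not at hcon
  choose f hf using hcon
  let g : C → V := fun c => if h1 : m c v = v then f c h1 else m c v
  have g1 : ∀ c (h1 : m c v = v), g c = f c h1 := fun c h1 => dif_pos h1
  have g2 : ∀ c, m c v ≠ v → g c = m c v := fun c h1 => dif_neg h1
  have hg : Function.Injective g := by
    intro c c' hcc
    by_cases h1 : m c v = v <;> by_cases h2 : m c' v = v
    · rw [g1 c h1, g1 c' h2] at hcc
      rw [← (hf c h1).2, ← (hf c' h2).2, hcc]
    · rw [g1 c h1, g2 c' h2] at hcc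
      exact absurd hcc.symm ((hD.unc (hf c h1).1).unc c')
    · rw [g2 c h1, g1 c' h2] at hcc
      exact absurd hcc ((hD.unc (hf c' h2).1).unc c)
    · rw [g2 c h1, g2 c' h2] at hcc
      exact h.pc.unq c c' v hcc h1
  have hsub : Set.range g ⊆ {w | A v w ∧ w ≠ ι v} := by
    rintro _ ⟨c, rfl⟩
    by_cases h1 : m c v = v
    · rw [g1 c h1]
      have := hD.unc (hf c h1).1
      exact ⟨this.adj, this.nio⟩
    · rw [g2 c h1]
      exact ⟨h.pc.adj c v h1, h.pc.nio c v⟩
  have h1 := Set.ncard_le_ncard hsub (Set.toFinite _)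
  rw [← Set.image_univ, Set.ncard_image_of_injective _ hg, Set.ncard_univ,
    Nat.card_eq_fintype_card] at h1
  omega

/-- The flip preserves the chains. -/
theorem Done.flip (hS : Sys A ι) (h : Mx A ι m) (hD : Done A ι m P r) {δ : C}
    (hu : Unc A ι m a z) (hP0 : ¬ P a z) (hδ : m δ a = ι z)
    (hQ : ∀ p q, P p q → (δ = r p q ∨ δ = r q p) → a ∉ K ι m r p q) :
    ∃ m', Mx A ι m' ∧ Done A ι m' P r ∧ (∀ c' ≠ δ, m' c' = m c') ∧ Unc A ι m' a (ι z) := by
  obtain ⟨m', h1, hN, hne, ho, -, hu', hunc⟩ := Col.flip hS h.col hu hδ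
  refine ⟨m', h.of h1 hN, ?_, hne, hu'⟩
  have hδ' := h.col.pc.eq hδ
  have hδz : m δ z = ι a := by
    apply hS.inj
    rw [← h.col.com, hδ', hS.inv]
  have agree : ∀ p q, P p q → ∀ v ∈ K ι m r p q, m' (r p q) v = m (r p q) v := by
    intro p q hP v hv
    by_cases h2 : r p q = δ
    · have haK := hQ p q hP (Or.inl h2.symm)
      rw [h2]
      have key : ∀ u, u ∈ K ι m r p q → u ≠ a ∧ u ≠ ι a := by
        intro u huK
        refine ⟨?_, ?_⟩
        · rintro rfl; exact haK huK
        · rintro rfl; exact haK ((cl.iota_iff hS.inv).1 huK)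
      have key2 : ∀ u, u ∈ K ι m r p q → u ≠ z := by
        rintro u huK rfl
        have h3 : m (r p q) u ∈ K ι m r p q := cl.left (h.col.com _) huK
        rw [h2, hδz] at h3
        exact (key _ h3).2 rfl
      refine ho v (key v hv).1 (key2 v hv) (key v hv).2 ?_
      rintro rfl
      exact key2 z ((cl.iota_iff hS.inv).1 hv) rfl
    · rw [hne _ h2]
  have agree' : ∀ p q, P p q → ∀ v ∈ K ι m r p q, m' (r q p) v = m (r q p) v := by
    intro p q hP v hv
    rw [← hD.K_symm hS h hP] at hv
    exact agree q p (hD.symm hP) v hv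
  refine ⟨?_, hD.symm, hD.iota, hD.rio, ?_, hD.inj, ?_⟩
  · intro p q hP
    refine hunc p q (hD.unc hP) ?_
    rintro (⟨rfl, rfl⟩ | ⟨rfl, rfl⟩ | ⟨rfl, rfl⟩ | ⟨rfl, rfl⟩)
    · exact hP0 hP
    · exact hP0 (hD.symm hP)
    · have := hD.iota hP
      rw [hS.inv, hS.inv] at this
      exact hP0 this
    · have := hD.symm (hD.iota hP)
      rw [hS.inv, hS.inv] at this
      exact hP0 this
  · intro p q hP
    rw [agree p q hP p (cl.self _ _ _ _), hD.miss hP]
  · intro p q hP
    rw [Cl.congr (fun v hv => agree p q hP v (cl.of hv))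
      (fun v hv => agree' p q hP v (cl.of hv))]
    exact hD.neg hP

/-- there is a larger set of treated edges -/
def Succ (A : V → V → Prop) (ι : V → V) (C : Type*) [Fintype C] (P : V → V → Prop) : Prop :=
  ∃ (m' : C → V → V) (P' : V → V → Prop) (r' : V → V → C), Mx A ι m' ∧ Done A ι m' P' r' ∧
    {x : V × V | P x.1 x.2}.ncard < {x : V × V | P' x.1 x.2}.ncard

theorem Succ.of {m' : C → V → V} {P' : V → V → Prop} {r' : V → V → C} (h1 : Mx A ι m')
    (h2 : Done A ι m' P' r') (h3 : ∀ p q, P p q → P' p q) (h4 : P' a b) (h5 : ¬ P a b) :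
    Succ A ι C P := by
  refine ⟨m', P', r', h1, h2, Set.ncard_lt_ncard ?_ (Set.toFinite _)⟩
  refine ⟨fun x hx => h3 _ _ hx, fun h6 => h5 ?_⟩
  exact h6 (a := (a, b)) h4

/-- the case of a pair of edges with different signs -/
theorem Done.finish (hS : Sys A ι) (hd : ∀ v, {w | A v w ∧ w ≠ ι v}.ncard + 1 ≤ Fintype.card C)
    (h : Mx A ι m) (hD : Done A ι m P r) {δ : C}
    (hu : Unc A ι m a z) (hP0 : ¬ P a z) (hδ : m δ a = ι z)
    (hQ : ∀ p q, P p q → (δ = r p q ∨ δ = r q p) → a ∉ K ι m r p q) : Succ A ι C P := by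
  have haz := hu.ne hS
  have hza := hu.nio
  obtain ⟨α, hα, hαR⟩ := hD.free h.col (hd a)
  obtain ⟨β, hβ, hβR⟩ := hD.free h.col (hd z)
  by_cases hneg : z ∈ Cl (m α) (m β) a
  · obtain ⟨m', hM', hD', hne, hu'⟩ := hD.flip hS h hu hP0 hδ hQ
    have hδa : α ≠ δ := by
      rintro rfl
      rw [hα] at hδ
      exact hza (by rw [hδ, hS.inv])
    have hδz : β ≠ δ := by
      rintro rfl
      have h1 := h.col.pc.eq hδ
      rw [h.col.com, hβ] at h1
      exact hza (by rw [← h1, hS.inv])
    obtain ⟨r', hr'⟩ := hD'.extend (α := α) (β := β) hS hM' hu' (by rw [hne α hδa, hα])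
      (by rw [hne β hδz, h.col.com, hβ]) hαR (by
        intro w hw
        have h1 : P z (ι w) := by
          have := hD.iota hw
          rwa [hS.inv] at this
        have h2 := hD.rio h1
        rw [hS.inv] at h2
        rw [h2]
        exact hβR _ h1) (by
        rw [hne α hδa, hne β hδz]
        intro h1
        have h2 := Cl.ends (h.col.pc.inv α) (h.col.pc.inv β) hα hneg h1 haz.symm
          (fun h2 => hza (by rw [← h2, hS.inv])) (Or.inr hβ) (Or.inr (by rw [h.col.com, hβ]))
        exact hS.ne z h2.symm)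
    refine Succ.of (a := a) (b := ι z) hM' hr' (fun p q hP => Or.inl hP)
      (Or.inr (Or.inl ⟨rfl, rfl⟩)) ?_
    intro hP
    exact (hD.unc hP).unc δ hδ
  · obtain ⟨r', hr'⟩ := hD.extend hS h hu hα hβ hαR hβR hneg
    exact Succ.of (a := a) (b := z) h hr' (fun p q hP => Or.inl hP)
      (Or.inr (Or.inl ⟨rfl, rfl⟩)) hP0

theorem Done.augment (hS : Sys A ι) (hd : ∀ v, {w | A v w ∧ w ≠ ι v}.ncard + 1 ≤ Fintype.card C)
    (h : Mx A ι m) (hD : Done A ι m P r) (hu : Unc A ι m a b) (hP0 : ¬ P a b) :
    Succ A ι C P := by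
  by_contra hcon
  choose β hβ hβR using fun v => hD.free h.col (hd v)
  let f : ℕ → V := fun n => n.rec b (fun _ u => m (β u) a)
  have f0 : f 0 = b := rfl
  have fs : ∀ n, f (n + 1) = m (β (f n)) a := fun n => rfl
  let c : ℕ → C := fun n => β (f n)
  have hc : ∀ n, c n = β (f n) := fun n => rfl
  have hu0 : Unc A ι m a (f 0) := hu
  have hP0' : ¬ P a (f 0) := hP0
  obtain ⟨α, hα, -⟩ := hD.free h.col (hd a)
  have hR : ∀ n, ∀ j < n, ∀ w, P (f j) w → r (f j) w ≠ c j := by
    intro n j _ w hw
    exact hβR _ w hw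
  have main : ∀ n, Fan ι m a f c n ∧
      (∀ j < n, ∀ p q, P p q → (c j = r p q ∨ c j = r q p) → a ∉ K ι m r p q) := by
    intro n
    induction n with
    | zero =>
      refine ⟨⟨?_, ?_, ?_, ?_⟩, ?_⟩ <;> intros <;> omega
    | succ n ih =>
      obtain ⟨hF, hQ⟩ := ih
      have hQn := hD.fan_Q hS h hu0 hP0' hF hQ (hR n) (γ := c n) (hβ _) (fun w hw => hβR _ w hw)
      have hna : f (n + 1) ≠ a := by
        intro h1
        exact h.fan_no hS hu0 hF (γ := c n) h1 (hβ _)
      have hd1 : ∀ i ≤ n, f (n + 1) ≠ f i := by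
        intro i hi h1
        rcases i with _ | i
        · exact hu0.unc _ h1
        · have h2 : m (c n) a = m (c i) a := h1
          have h3 := h.col.pc.unq _ _ _ h2 (by
            show f (n + 1) ≠ a
            exact hna)
          exact h.fan_two hS hu0 hF hα (i := i) (by omega) h3.symm (hβ _)
      have hd2 : ∀ i ≤ n, f (n + 1) ≠ ι (f i) := by
        intro i hi h1
        apply hcon
        obtain ⟨m', H⟩ := h.col.shift hS hu0 (hF.pre hi)
        obtain ⟨hD', hK⟩ := hD.shift hS h hP0' H (fun j hj => hQ j (by omega)) (hR i)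
        have h2 : m' (c n) = m (c n) := by
          apply H.same
          intro j hj h3
          have h4 : f (n + 1) = f (j + 1) := by
            rw [fs, fs, ← hc, ← hc, h3]
          rw [h1] at h4
          rcases Nat.lt_or_ge (j + 1) i with h5 | h5
          · exact (hF.dist (j + 1) i h5 hi).2 (by rw [← h4, hS.inv])
          · have h6 : j + 1 = i := by omega
            rw [h6] at h4
            exact hS.ne _ h4
        refine hD'.finish hS hd (h.of H.col H.N) (δ := c n) H.unc ?_ ?_ ?_
        · rcases i with _ | i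
          · exact hP0'
          · intro hP
            exact (hD.unc hP).unc _ (hF.edge i (by omega))
        · rw [h2]
          exact h1
        · intro p q hP h3
          rw [hK p q hP]
          exact hQn p q hP h3
      refine ⟨⟨?_, ?_, ?_, ?_⟩, ?_⟩
      · intro j _
        exact hβ _
      · intro j _
        rfl
      · intro j hj
        rcases Nat.lt_or_ge j n with h1 | h1
        · exact hF.na j h1
        · have h2 : j = n := by omega
          rw [h2]
          exact hna
      · intro i j hij hj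
        rcases Nat.lt_or_ge j (n + 1) with h1 | h1
        · exact hF.dist i j hij (by omega)
        · have h2 : j = n + 1 := by omega
          rw [h2]
          exact ⟨hd1 i (by omega), hd2 i (by omega)⟩
      · intro j hj
        rcases Nat.lt_or_ge j n with h1 | h1
        · exact hQ j h1
        · have h2 : j = n := by omega
          rw [h2]
          exact hQn
  have hinj : Function.Injective f := by
    intro i j hij
    rcases lt_trichotomy i j with h1 | h1 | h1
    · exact absurd hij.symm ((main j).1.dist i j h1 le_rfl).1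
    · exact h1
    · exact absurd hij ((main i).1.dist j i h1 le_rfl).1
  exact not_injective_infinite_finite f hinj

/-- There is a colouring with the largest number of coloured edges for which all uncoloured edges
have negative chains, with different reserved colours at each vertex. -/
theorem exists_full (hS : Sys A ι) [Nonempty V]
    (hd : ∀ v, {w | A v w ∧ w ≠ ι v}.ncard + 1 ≤ Fintype.card C) :
    ∃ (m : C → V → V) (r : V → V → C), Mx A ι m ∧ Done A ι m (Unc A ι m) r := by
  obtain ⟨m0, hm0⟩ := Mx.exists (C := C) (A := A) hS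
  have hC : Nonempty C := by
    rw [← Fintype.card_pos_iff]
    have := hd (Classical.arbitrary V)
    omega
  let Q : ℕ → Prop := fun n => ∃ (m : C → V → V) (P : V → V → Prop) (r : V → V → C),
    Mx A ι m ∧ Done A ι m P r ∧ {x : V × V | P x.1 x.2}.ncard = n
  have hQ0 : ∃ n, Q n := by
    refine ⟨_, m0, fun _ _ => False, fun _ _ => Classical.arbitrary C, hm0, ?_, rfl⟩
    exact ⟨fun h => h.elim, fun h => h.elim, fun h => h.elim, fun h => h.elim,
      fun h => h.elim, fun h => h.elim, fun h => h.elim⟩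
  have hbdd : ∀ n, Q n → n ≤ (Set.univ : Set (V × V)).ncard := by
    rintro n ⟨m, P, r, -, -, rfl⟩
    exact Set.ncard_le_ncard (Set.subset_univ _) (Set.toFinite _)
  classical
  obtain ⟨n, hn, hmax⟩ : ∃ n, Q n ∧ ∀ n', Q n' → n' ≤ n := by
    obtain ⟨n0, hn0⟩ := hQ0
    exact ⟨Nat.findGreatest Q (Set.univ : Set (V × V)).ncard,
      Nat.findGreatest_spec (hbdd n0 hn0) hn0, fun n' h' => Nat.le_findGreatest (hbdd n' h') h'⟩
  obtain ⟨m, P, r, hm, hD, hcard⟩ := hn
  have hall : ∀ a b, Unc A ι m a b → P a b := by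
    intro a b hu
    by_contra hP
    obtain ⟨m', P', r', h1, h2, h3⟩ := hD.augment hS hd hm hu hP
    have := hmax _ ⟨m', P', r', h1, h2, rfl⟩
    omega
  have heq : P = Unc A ι m := by
    funext a b
    exact propext ⟨fun h => hD.unc h, hall a b⟩
  rw [heq] at hD
  exact ⟨m, r, hm, hD⟩

end Pool.Agent.T9h84.WR
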