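import Pool.Agent.K7.H15.WR.Chain

set_option autoImplicit false

/-!
# Closures under two or three involutions
-/

namespace Pool.Agent.T9h84.WR

section

variable {V : Type*}

/-- the smallest set which contains `a` and is closed under `g` and `h` -/
def Cl (g h : V → V) (a : V) : Set V :=
  {w | ∀ S : Set V, a ∈ S → (∀ v ∈ S, g v ∈ S) → (∀ v ∈ S, h v ∈ S) → w ∈ S}

variable {g h ι : V → V} {a b v w : V}

theorem Cl.self (g h : V → V) (a : V) : a ∈ Cl g h a := fun _ h1 _ _ => h1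

theorem Cl.left (hv : v ∈ Cl g h a) : g v ∈ Cl g h a :=
  fun S h1 h2 h3 => h2 _ (hv S h1 h2 h3)

theorem Cl.right (hv : v ∈ Cl g h a) : h v ∈ Cl g h a :=
  fun S h1 h2 h3 => h3 _ (hv S h1 h2 h3)

theorem Cl.min (hw : w ∈ Cl g h a) {S : Set V} (h1 : a ∈ S) (h2 : ∀ v ∈ S, g v ∈ S)
    (h3 : ∀ v ∈ S, h v ∈ S) : w ∈ S := hw S h1 h2 h3

theorem Cl.trans (hv : v ∈ Cl g h a) (hw : w ∈ Cl g h v) : w ∈ Cl g h a :=
  Cl.min hw hv (fun _ h => Cl.left h) (fun _ h => Cl.right h)

theorem Cl.symm (hg : ∀ v, g (g v) = v) (hh : ∀ v, h (h v) = v) (hw : w ∈ Cl g h a) :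
    a ∈ Cl g h w := by
  by_contra hcon
  have h1 : w ∈ {v | v ∉ Cl g h w} := by
    refine Cl.min hw hcon ?_ ?_
    · intro v hv h2
      apply hv
      have := Cl.left h2
      rwa [hg] at this
    · intro v hv h2
      apply hv
      have := Cl.right h2
      rwa [hh] at this
  exact h1 (Cl.self g h w)

theorem Cl.comm_iff : w ∈ Cl g h a ↔ w ∈ Cl h g a :=
  ⟨fun h1 S h2 h3 h4 => h1 S h2 h4 h3, fun h1 S h2 h3 h4 => h1 S h2 h4 h3⟩

theorem Cl.map (hg : ∀ v, g (ι v) = ι (g v)) (hh : ∀ v, h (ι v) = ι (h v))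
    (hw : w ∈ Cl g h a) : ι w ∈ Cl g h (ι a) := by
  have : w ∈ {v | ι v ∈ Cl g h (ι a)} := by
    refine Cl.min hw (Cl.self g h _) ?_ ?_
    · intro v hv
      show ι (g v) ∈ Cl g h (ι a)
      rw [← hg]
      exact Cl.left hv
    · intro v hv
      show ι (h v) ∈ Cl g h (ι a)
      rw [← hh]
      exact Cl.right hv
  exact this

/-- If both functions fix `a`, the closure is trivial. -/
theorem Cl.trivial (hg : g a = a) (hh : h a = a) (hw : w ∈ Cl g h a) : w = a := by
  have : w ∈ ({a} : Set V) := by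
    refine Cl.min hw rfl ?_ ?_
    · rintro v rfl
      exact hg
    · rintro v rfl
      exact hh
  exact this

/-- The functions may be replaced by functions with the same values on the closure. -/
theorem Cl.congr {g' h' : V → V} (h1 : ∀ v ∈ Cl g h a, g' v = g v)
    (h2 : ∀ v ∈ Cl g h a, h' v = h v) : Cl g' h' a = Cl g h a := by
  have hsub : ∀ w ∈ Cl g' h' a, w ∈ Cl g h a := by
    intro w hw
    refine Cl.min hw (Cl.self g h a) ?_ ?_
    · intro v hv
      rw [h1 v hv]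
      exact Cl.left hv
    · intro v hv
      rw [h2 v hv]
      exact Cl.right hv
  ext w
  refine ⟨hsub w, fun hw => ?_⟩
  have : w ∈ {v | v ∈ Cl g h a ∧ v ∈ Cl g' h' a} := by
    refine Cl.min hw ⟨Cl.self g h a, Cl.self g' h' a⟩ ?_ ?_
    · rintro v ⟨hv, hv'⟩
      refine ⟨Cl.left hv, ?_⟩
      rw [← h1 v hv]
      exact Cl.left hv'
    · rintro v ⟨hv, hv'⟩
      refine ⟨Cl.right hv, ?_⟩
      rw [← h2 v hv]
      exact Cl.right hv'
  exact this.2

/-- the smallest set which contains `a` and is closed under `g`, `h` and `ι`, if `ι` is an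
involution which commutes with `g` and `h` -/
def cl (ι g h : V → V) (a : V) : Set V := {w | w ∈ Cl g h a ∨ ι w ∈ Cl g h a}

theorem cl.self (ι g h : V → V) (a : V) : a ∈ cl ι g h a := Or.inl (Cl.self g h a)

theorem cl.of (hw : w ∈ Cl g h a) : w ∈ cl ι g h a := Or.inl hw

section

variable (hg : ∀ v, g (ι v) = ι (g v)) (hh : ∀ v, h (ι v) = ι (h v)) (hι : ∀ v, ι (ι v) = v)

include hg in
theorem cl.left (hv : v ∈ cl ι g h a) : g v ∈ cl ι g h a := by
  rcases hv with hv | hv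
  · exact Or.inl (Cl.left hv)
  · right
    rw [← hg]
    exact Cl.left hv

include hh in
theorem cl.right (hv : v ∈ cl ι g h a) : h v ∈ cl ι g h a := by
  rcases hv with hv | hv
  · exact Or.inl (Cl.right hv)
  · right
    rw [← hh]
    exact Cl.right hv

include hι in
theorem cl.iota (hv : v ∈ cl ι g h a) : ι v ∈ cl ι g h a := by
  rcases hv with hv | hv
  · right
    rw [hι]
    exact hv
  · exact Or.inl hv

include hι in
theorem cl.iota_iff : ι v ∈ cl ι g h a ↔ v ∈ cl ι g h a := by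
  refine ⟨fun h1 => ?_, fun h1 => cl.iota hι h1⟩
  have := cl.iota hι h1
  rwa [hι] at this

include hι in
theorem cl.min (hw : w ∈ cl ι g h a) {S : Set V} (h1 : a ∈ S) (h2 : ∀ v ∈ S, g v ∈ S)
    (h3 : ∀ v ∈ S, h v ∈ S) (h4 : ∀ v ∈ S, ι v ∈ S) : w ∈ S := by
  rcases hw with hw | hw
  · exact Cl.min hw h1 h2 h3
  · have := h4 _ (Cl.min hw h1 h2 h3)
    rwa [hι] at this

include hg hh hι in
theorem cl.symm (hg' : ∀ v, g (g v) = v) (hh' : ∀ v, h (h v) = v) (hw : w ∈ cl ι g h a) :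
    a ∈ cl ι g h w := by
  rcases hw with hw | hw
  · exact Or.inl (Cl.symm hg' hh' hw)
  · right
    have h1 := Cl.map hg hh (Cl.symm hg' hh' hw)
    rwa [hι] at h1

include hg hh hι in
theorem cl.trans (hv : v ∈ cl ι g h a) (hw : w ∈ cl ι g h v) : w ∈ cl ι g h a :=
  cl.min hι hw hv (fun _ h => cl.left hg h) (fun _ h => cl.right hh h) (fun _ h => cl.iota hι h)

include hι in
/-- If both functions fix `a`, the closure is trivial. -/
theorem cl.trivial (hga : g a = a) (hha : h a = a) (hw : w ∈ cl ι g h a) : w = a ∨ w = ι a := by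
  rcases hw with hw | hw
  · exact Or.inl (Cl.trivial hga hha hw)
  · right
    rw [← Cl.trivial hga hha hw, hι]

end

theorem cl.comm_iff : w ∈ cl ι g h a ↔ w ∈ cl ι h g a := by
  show (_ ∨ _) ↔ (_ ∨ _)
  rw [Cl.comm_iff, Cl.comm_iff (w := ι w)]

theorem cl.congr {g' h' : V → V} (h1 : ∀ v ∈ cl ι g h a, g' v = g v)
    (h2 : ∀ v ∈ cl ι g h a, h' v = h v) : cl ι g' h' a = cl ι g h a := by
  unfold cl
  rw [Cl.congr (fun v hv => h1 v (cl.of hv)) (fun v hv => h2 v (cl.of hv))]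

end

section ends

variable {V : Type*} [Fintype V] {g h ι : V → V} {a u v : V}

theorem Cl.ends (hg : ∀ v, g (g v) = v) (hh : ∀ v, h (h v) = v) (ha : g a = a)
    (hu : u ∈ Cl g h a) (hv : v ∈ Cl g h a) (hua : u ≠ a) (hva : v ≠ a)
    (hu' : g u = u ∨ h u = u) (hv' : g v = v ∨ h v = v) : u = v := by
  classical
  obtain ⟨S, h1, h2, h3, h4⟩ := Pool.Agent.K7.H15.WR.chain_exists g h hg hh a ha
  have h5 : ∀ w ∈ Cl g h a, w ∈ S := fun w hw => Cl.min hw (S := (S : Set V)) h1 h2 h3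
  exact h4 u (h5 u hu) v (h5 v hv) hua hva hu' hv'

theorem cl.ends (hι : ∀ v, ι (ι v) = v) (hgι : ∀ v, g (ι v) = ι (g v))
    (hhι : ∀ v, h (ι v) = ι (h v)) (hg : ∀ v, g (g v) = v) (hh : ∀ v, h (h v) = v)
    (ha : g a = a) (hu : u ∈ cl ι g h a) (hv : v ∈ cl ι g h a) (hua : u ≠ a) (hua' : u ≠ ι a)
    (hva : v ≠ a) (hva' : v ≠ ι a) (hu' : g u = u ∨ h u = u) (hv' : g v = v ∨ h v = v) :
    v = u ∨ v = ι u := by
  have key : ∀ {w : V}, (g w = w ∨ h w = w) → (g (ι w) = ι w ∨ h (ι w) = ι w) := by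
    intro w hw
    rcases hw with hw | hw
    · left
      rw [hgι, hw]
    · right
      rw [hhι, hw]
  have hne : ∀ {w : V}, w ≠ ι a → ι w ≠ a := by
    intro w hw h1
    apply hw
    rw [← h1, hι]
  rcases hu with hu | hu <;> rcases hv with hv | hv
  · exact Or.inl (Cl.ends hg hh ha hu hv hua hva hu' hv').symm
  · right
    have := Cl.ends hg hh ha hu hv hua (hne hva') hu' (key hv')
    rw [this, hι]
  · right
    exact (Cl.ends hg hh ha hu hv (hne hua') hva (key hu') hv').symm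
  · left
    have := Cl.ends hg hh ha hu hv (hne hua') (hne hva') (key hu') (key hv')
    rw [← hι u, this, hι]

end ends

end Pool.Agent.T9h84.WR
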