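import Pool.Agent.T9h84.WR.Cl

set_option autoImplicit false

/-!
# Partial edge colourings of graphs with an involution

A partial edge colouring with colours in `C` of the edges of a graph on `V` is a family
`m : C → V → V` of involutions, `m c` exchanges the ends of the edges with the colour `c`.
-/

namespace Pool.Agent.T9h84.WR

open Finset

/-- `A` is the adjacency relation of a simple graph and `ι` is an automorphism of order two without
fixed points -/
structure Sys {V : Type*} (A : V → V → Prop) (ι : V → V) : Prop where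
  symm : ∀ {v w}, A v w → A w v
  irr : ∀ v, ¬ A v v
  inv : ∀ v, ι (ι v) = v
  ne : ∀ v, ι v ≠ v
  iota : ∀ {v w}, A v w → A (ι v) (ι w)

/-- partial edge colourings of the edges `v w` with `w ≠ ι v` -/
structure PC {V C : Type*} (A : V → V → Prop) (ι : V → V) (m : C → V → V) : Prop where
  inv : ∀ c v, m c (m c v) = v
  adj : ∀ c v, m c v ≠ v → A v (m c v)
  nio : ∀ c v, m c v ≠ ι v
  unq : ∀ c c' v, m c v = m c' v → m c v ≠ v → c = c'

/-- the colouring is invariant under `ι` -/
def Com {V C : Type*} (ι : V → V) (m : C → V → V) : Prop := ∀ c v, m c (ι v) = ι (m c v)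

/-- the edge `a b` has no colour -/
structure Unc {V C : Type*} (A : V → V → Prop) (ι : V → V) (m : C → V → V) (a b : V) : Prop where
  adj : A a b
  nio : b ≠ ι a
  unc : ∀ c, m c a ≠ b

section basic

variable {V C : Type*} {A : V → V → Prop} {ι : V → V} {m : C → V → V} {a b v w : V} {c c' : C}

theorem Sys.inj (hS : Sys A ι) (h : ι v = ι w) : v = w := by
  rw [← hS.inv v, h, hS.inv]

theorem Sys.eq_iff (hS : Sys A ι) : ι v = w ↔ v = ι w :=
  ⟨fun h => by rw [← h, hS.inv], fun h => by rw [h, hS.inv]⟩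

theorem PC.eq (hm : PC A ι m) (h : m c v = w) : m c w = v := by rw [← h, hm.inv]

theorem Unc.symm (hS : Sys A ι) (hm : PC A ι m) (h : Unc A ι m a b) : Unc A ι m b a where
  adj := hS.symm h.adj
  nio h1 := h.nio (by rw [h1, hS.inv])
  unc c h1 := h.unc c (hm.eq h1)

theorem Unc.iota (hS : Sys A ι) (hc : Com ι m) (h : Unc A ι m a b) :
    Unc A ι m (ι a) (ι b) where
  adj := hS.iota h.adj
  nio h1 := h.nio (hS.inj h1)
  unc c h1 := h.unc c (hS.inj (by rw [← hc, h1]))

theorem Unc.ne (hS : Sys A ι) (h : Unc A ι m a b) : a ≠ b := by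
  rintro rfl
  exact hS.irr _ h.adj

end basic

section toggle

variable {V C : Type*} [DecidableEq V] [DecidableEq C]

/-- add or remove the edge `a b` with the colour `c` -/
def tg (m : C → V → V) (c : C) (a b : V) : C → V → V :=
  fun c' v => if c' = c then m c (Equiv.swap a b v) else m c' v

variable {A : V → V → Prop} {ι : V → V} {m : C → V → V} {a b v w : V} {c c' : C}

theorem tg_ne (h : c' ≠ c) : tg m c a b c' = m c' := by
  funext v
  exact if_neg h

theorem tg_left : tg m c a b c a = m c b := by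
  simp [tg]

theorem tg_right : tg m c a b c b = m c a := by
  simp [tg]

theorem tg_other (h1 : v ≠ a) (h2 : v ≠ b) : tg m c a b c' v = m c' v := by
  unfold tg
  rw [Equiv.swap_apply_of_ne_of_ne h1 h2]
  split_ifs with h
  · rw [h]
  · rfl

theorem tg_comm : tg m c a b = tg m c b a := by
  funext c' v
  unfold tg
  rw [Equiv.swap_comm]

theorem tg_tg : tg (tg m c a b) c a b = m := by
  funext c' v
  by_cases h : c' = c
  · subst h
    simp [tg]
  · rw [tg_ne h, tg_ne h]

/-- adding an edge -/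
theorem PC.add (hS : Sys A ι) (hm : PC A ι m) (hu : Unc A ι m a b) (ha : m c a = a)
    (hb : m c b = b) : PC A ι (tg m c a b) := by
  have hab := hu.ne hS
  have hu' := hu.symm hS hm
  have hcases : ∀ c' v, (c' = c ∧ v = a ∧ tg m c a b c' v = b) ∨
      (c' = c ∧ v = b ∧ tg m c a b c' v = a) ∨
      (¬ (c' = c ∧ (v = a ∨ v = b)) ∧ tg m c a b c' v = m c' v) := by
    intro c' v
    by_cases h : c' = c
    · subst h
      by_cases h1 : v = a
      · subst h1
        exact Or.inl ⟨rfl, rfl, by rw [tg_left, hb]⟩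
      · by_cases h2 : v = b
        · subst h2
          exact Or.inr (Or.inl ⟨rfl, rfl, by rw [tg_right, ha]⟩)
        · exact Or.inr (Or.inr ⟨fun h => h.2.elim h1 h2, tg_other h1 h2⟩)
    · exact Or.inr (Or.inr ⟨fun h1 => h h1.1, by rw [tg_ne h]⟩)
  refine ⟨?_, ?_, ?_, ?_⟩
  · intro c' v
    rcases hcases c' v with ⟨rfl, rfl, h⟩ | ⟨rfl, rfl, h⟩ | ⟨h0, h⟩
    · rw [h, tg_right, ha]
    · rw [h, tg_left, hb]
    · rw [h]
      rcases hcases c' (m c' v) with ⟨rfl, h1, h⟩ | ⟨rfl, h1, h⟩ | ⟨-, h⟩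
      · exact absurd ⟨rfl, Or.inl ((hm.eq h1).symm.trans ha)⟩ h0
      · exact absurd ⟨rfl, Or.inr ((hm.eq h1).symm.trans hb)⟩ h0
      · rw [h, hm.inv]
  · intro c' v
    rcases hcases c' v with ⟨rfl, rfl, h⟩ | ⟨rfl, rfl, h⟩ | ⟨-, h⟩
    · rw [h]
      exact fun _ => hu.adj
    · rw [h]
      exact fun _ => hu'.adj
    · rw [h]
      exact hm.adj c' v
  · intro c' v
    rcases hcases c' v with ⟨rfl, rfl, h⟩ | ⟨rfl, rfl, h⟩ | ⟨-, h⟩
    · rw [h]
      exact hu.nio
    · rw [h]
      exact hu'.nio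
    · rw [h]
      exact hm.nio c' v
  · intro c1 c2 v
    rcases hcases c1 v with ⟨h0, h1, h⟩ | ⟨h0, h1, h⟩ | ⟨-, h⟩ <;>
    rcases hcases c2 v with ⟨h0', h1', h'⟩ | ⟨h0', h1', h'⟩ | ⟨-, h'⟩ <;> rw [h, h']
    · exact fun _ _ => h0.trans h0'.symm
    · exact fun _ _ => h0.trans h0'.symm
    · subst h1
      exact fun h2 _ => absurd h2.symm (hu.unc c2)
    · exact fun _ _ => h0.trans h0'.symm
    · exact fun _ _ => h0.trans h0'.symm
    · subst h1
      exact fun h2 _ => absurd h2.symm (hu'.unc c2)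
    · subst h1'
      exact fun h2 _ => absurd h2 (hu.unc c1)
    · subst h1'
      exact fun h2 _ => absurd h2 (hu'.unc c1)
    · exact hm.unq c1 c2 v

/-- removing an edge -/
theorem PC.rem (hm : PC A ι m) (ha : m c a = b) (hι : ∀ v, ι v ≠ v) :
    PC A ι (tg m c a b) := by
  have hb := hm.eq ha
  have hcases : ∀ c' v, (c' = c ∧ (v = a ∨ v = b) ∧ tg m c a b c' v = v) ∨
      (¬ (c' = c ∧ (v = a ∨ v = b)) ∧ tg m c a b c' v = m c' v) := by
    intro c' v
    by_cases h : c' = c
    · subst h
      by_cases h1 : v = a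
      · subst h1
        exact Or.inl ⟨rfl, Or.inl rfl, by rw [tg_left, hb]⟩
      · by_cases h2 : v = b
        · subst h2
          exact Or.inl ⟨rfl, Or.inr rfl, by rw [tg_right, ha]⟩
        · exact Or.inr ⟨fun h => h.2.elim h1 h2, tg_other h1 h2⟩
    · exact Or.inr ⟨fun h1 => h h1.1, by rw [tg_ne h]⟩
  refine ⟨?_, ?_, ?_, ?_⟩
  · intro c' v
    rcases hcases c' v with ⟨-, -, h⟩ | ⟨h0, h⟩
    · rw [h, h]
    · rw [h]
      rcases hcases c' (m c' v) with ⟨rfl, h1, h⟩ | ⟨-, h⟩
      · exfalso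
        apply h0
        refine ⟨rfl, ?_⟩
        rcases h1 with h1 | h1
        · exact Or.inr ((hm.eq h1).symm.trans ha)
        · exact Or.inl ((hm.eq h1).symm.trans hb)
      · rw [h, hm.inv]
  · intro c' v
    rcases hcases c' v with ⟨-, -, h⟩ | ⟨-, h⟩
    · rw [h]
      exact fun h => absurd rfl h
    · rw [h]
      exact hm.adj c' v
  · intro c' v
    rcases hcases c' v with ⟨-, -, h⟩ | ⟨-, h⟩
    · rw [h]
      exact (hι v).symm
    · rw [h]
      exact hm.nio c' v
  · intro c1 c2 v
    rcases hcases c1 v with ⟨rfl, -, h⟩ | ⟨h0, h⟩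
    · rw [h]
      exact fun _ h1 => absurd rfl h1
    · rcases hcases c2 v with ⟨rfl, -, h'⟩ | ⟨-, h'⟩
      · rw [h, h']
        exact fun h1 h2 => absurd h1 h2
      · rw [h, h']
        exact hm.unq c1 c2 v

variable [Fintype V] [Fintype C]

/-- the number of pairs of an edge with a colour and an end of it -/
def N (m : C → V → V) : ℕ := (univ.filter fun p : C × V => m p.1 p.2 ≠ p.2).card

theorem N_add (hab : a ≠ b) (ha : m c a = a) (hb : m c b = b) :
    N (tg m c a b) = N m + 2 := by
  have h : (univ.filter fun p : C × V => tg m c a b p.1 p.2 ≠ p.2) =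
      insert (c, a) (insert (c, b) (univ.filter fun p : C × V => m p.1 p.2 ≠ p.2)) := by
    ext ⟨c', v⟩
    simp only [mem_filter, mem_univ, true_and, mem_insert, Prod.mk.injEq]
    by_cases h : c' = c
    · subst h
      by_cases h1 : v = a
      · subst h1
        simp [tg_left, hb, hab.symm]
      · by_cases h2 : v = b
        · subst h2
          simp [tg_right, ha, hab]
        · rw [tg_other h1 h2]
          simp [h1, h2]
    · rw [tg_ne h]
      simp [h]
  unfold N
  rw [h, card_insert_of_notMem, card_insert_of_notMem]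
  · simp [hb]
  · simp [ha, hab]

theorem N_rem (hm : PC A ι m) (hab : a ≠ b) (ha : m c a = b) : N (tg m c a b) + 2 = N m := by
  have hb := hm.eq ha
  have h := N_add (m := tg m c a b) (c := c) hab (by rw [tg_left, hb]) (by rw [tg_right, ha])
  rw [tg_tg] at h
  exact h.symm

end toggle

section swap

variable {V C : Type*} [DecidableEq C]

open Classical in
/-- exchange the colours `α` and `β` at the vertices in `S` -/
noncomputable def sw (m : C → V → V) (α β : C) (S : Set V) : C → V → V :=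
  fun c v => if v ∈ S then m (Equiv.swap α β c) v else m c v

variable {A : V → V → Prop} {ι : V → V} {m : C → V → V} {v w : V} {c : C} {α β : C} {S : Set V}

theorem sw_in (hv : v ∈ S) : sw m α β S c v = m (Equiv.swap α β c) v := if_pos hv

theorem sw_out (hv : v ∉ S) : sw m α β S c v = m c v := if_neg hv

theorem sw_left (hv : v ∈ S) : sw m α β S α v = m β v := by
  rw [sw_in hv, Equiv.swap_apply_left]

theorem sw_right (hv : v ∈ S) : sw m α β S β v = m α v := by
  rw [sw_in hv, Equiv.swap_apply_right]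

theorem sw_ne (h1 : c ≠ α) (h2 : c ≠ β) : sw m α β S c = m c := by
  funext v
  unfold sw
  rw [Equiv.swap_apply_of_ne_of_ne h1 h2, ite_self]

/-- the values do not change -/
theorem sw_exists (c : C) (v : V) : ∃ c', sw m α β S c v = m c' v := by
  unfold sw
  split_ifs
  · exact ⟨_, rfl⟩
  · exact ⟨_, rfl⟩

theorem PC.sw (hm : PC A ι m) (hα : ∀ v ∈ S, m α v ∈ S) (hβ : ∀ v ∈ S, m β v ∈ S) :
    PC A ι (sw m α β S) := by
  have hα' : ∀ v, v ∉ S → m α v ∉ S := fun v hv h => hv (by
    have := hα _ h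
    rwa [hm.inv] at this)
  have hβ' : ∀ v, v ∉ S → m β v ∉ S := fun v hv h => hv (by
    have := hβ _ h
    rwa [hm.inv] at this)
  refine ⟨?_, ?_, ?_, ?_⟩
  · intro c v
    by_cases h1 : c = α
    · subst h1
      by_cases hv : v ∈ S
      · rw [sw_left hv, sw_left (hβ v hv), hm.inv]
      · rw [sw_out hv, sw_out (hα' v hv), hm.inv]
    · by_cases h2 : c = β
      · subst h2
        by_cases hv : v ∈ S
        · rw [sw_right hv, sw_right (hα v hv), hm.inv]
        · rw [sw_out hv, sw_out (hβ' v hv), hm.inv]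
      · rw [sw_ne h1 h2, hm.inv]
  · intro c v
    obtain ⟨c', h⟩ := sw_exists (m := m) (α := α) (β := β) (S := S) c v
    rw [h]
    exact hm.adj c' v
  · intro c v
    obtain ⟨c', h⟩ := sw_exists (m := m) (α := α) (β := β) (S := S) c v
    rw [h]
    exact hm.nio c' v
  · intro c1 c2 v
    by_cases hv : v ∈ S
    · rw [sw_in hv, sw_in hv]
      intro h1 h2
      exact (Equiv.swap α β).injective (hm.unq _ _ v h1 h2)
    · rw [sw_out hv, sw_out hv]
      exact hm.unq c1 c2 v

theorem Com.sw (hc : Com ι m) (hS : ∀ v, ι v ∈ S ↔ v ∈ S) : Com ι (sw m α β S) := by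
  intro c v
  by_cases hv : v ∈ S
  · rw [sw_in hv, sw_in ((hS v).2 hv), hc]
  · rw [sw_out hv, sw_out (fun h => hv ((hS v).1 h)), hc]

theorem Unc.sw {a b : V} (h : Unc A ι m a b) : Unc A ι (sw m α β S) a b where
  adj := h.adj
  nio := h.nio
  unc c h1 := by
    obtain ⟨c', h2⟩ := sw_exists (m := m) (α := α) (β := β) (S := S) c a
    exact h.unc c' (h2.symm.trans h1)

theorem N_sw [DecidableEq V] [Fintype V] [Fintype C] : N (sw m α β S) = N m := by
  classical
  unfold N
  refine Finset.card_bij' (fun p _ => if p.2 ∈ S then (Equiv.swap α β p.1, p.2) else p)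
    (fun p _ => if p.2 ∈ S then (Equiv.swap α β p.1, p.2) else p) ?_ ?_ ?_ ?_
  · rintro ⟨c, v⟩ h
    simp only [mem_filter, mem_univ, true_and] at h ⊢
    by_cases hv : v ∈ S
    · rw [sw_in hv] at h
      simpa [hv] using h
    · rw [sw_out hv] at h
      simpa [hv] using h
  · rintro ⟨c, v⟩ h
    simp only [mem_filter, mem_univ, true_and] at h ⊢
    by_cases hv : v ∈ S
    · simp only [hv, if_true]
      rw [sw_in hv, Equiv.swap_apply_self]
      exact h
    · simp only [hv, if_false]
      rw [sw_out hv]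
      exact h
  · rintro ⟨c, v⟩ _
    by_cases hv : v ∈ S <;> simp [hv]
  · rintro ⟨c, v⟩ _
    by_cases hv : v ∈ S <;> simp [hv]

end swap

end Pool.Agent.T9h84.WR
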