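import Pool.Agent.T9h84.WR.Fan

set_option autoImplicit false
set_option linter.unusedSectionVars false

/-!
# Uncoloured edges with negative Kempe chains
-/

namespace Pool.Agent.T9h84.WR

open Finset

variable {V C : Type*} [DecidableEq V] [Fintype V] [Fintype C] [DecidableEq C]
  {A : V → V → Prop} {ι : V → V} {m : C → V → V} {a b v w z : V} {α β : C}

/-- `P` is a set of uncoloured edges; the colour `r p q` is missing at `p` and reserved for the edge
`p q`; the Kempe chain from `p` ends at `ι q`. -/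
structure Done (A : V → V → Prop) (ι : V → V) (m : C → V → V) (P : V → V → Prop)
    (r : V → V → C) : Prop where
  unc : ∀ {p q}, P p q → Unc A ι m p q
  symm : ∀ {p q}, P p q → P q p
  iota : ∀ {p q}, P p q → P (ι p) (ι q)
  rio : ∀ {p q}, P p q → r (ι p) (ι q) = r p q
  miss : ∀ {p q}, P p q → m (r p q) p = p
  inj : ∀ {p q q'}, P p q → P p q' → r p q = r p q' → q = q'
  neg : ∀ {p q}, P p q → q ∉ Cl (m (r p q)) (m (r q p)) p

variable {P : V → V → Prop} {r : V → V → C}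

/-- the Kempe chain of the edge `p q` and its image -/
def K (ι : V → V) (m : C → V → V) (r : V → V → C) (p q : V) : Set V :=
  cl ι (m (r p q)) (m (r q p)) p

theorem Done.mem_K (hS : Sys A ι) (h : Mx A ι m) (hD : Done A ι m P r) {p q : V}
    (hP : P p q) : q ∈ K ι m r p q :=
  h.kempe hS (hD.unc hP) (hD.miss hP) (hD.miss (hD.symm hP))

theorem Done.K_symm (hS : Sys A ι) (h : Mx A ι m) (hD : Done A ι m P r) {p q : V}
    (hP : P p q) : K ι m r q p = K ι m r p q := by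
  have key : ∀ {p q : V}, P p q → ∀ u, u ∈ K ι m r q p → u ∈ K ι m r p q := by
    intro p q hP u hu
    exact cl.trans (h.col.com _) (h.col.com _) hS.inv (hD.mem_K hS h hP) (cl.comm_iff.1 hu)
  ext u
  exact ⟨key hP u, key (hD.symm hP) u⟩

/-- the only ends of the chain -/
theorem Done.end_K (hS : Sys A ι) (h : Mx A ι m) (hD : Done A ι m P r) {p q : V}
    (hP : P p q) (hv : v ∈ K ι m r p q) (hm : m (r p q) v = v) : v = p ∨ v = ι p := by
  by_contra hcon
  push Not at hcon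
  have hu := hD.unc hP
  have h1 := Col.ends hS h.col (hD.miss hP) (hD.mem_K hS h hP) hv (hu.ne hS).symm hu.nio
    hcon.1 hcon.2 (Or.inr (hD.miss (hD.symm hP))) (Or.inl hm)
  have h2 : m (r p q) q = q := by
    rcases h1 with rfl | rfl
    · exact hm
    · rw [h.col.com] at hm
      exact hS.inj hm
  exact h.no hS hu (hD.miss hP) h2

/-- **Shifts preserve the chains.** -/
theorem Done.shift (hS : Sys A ι) (h : Mx A ι m) (hD : Done A ι m P r) {b : ℕ → V} {c : ℕ → C}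
    {n : ℕ} (hP0 : ¬ P a (b 0)) {m' : C → V → V} (H : Shifted A ι m m' a b c n)
    (hQ : ∀ j < n, ∀ p q, P p q → (c j = r p q ∨ c j = r q p) → a ∉ K ι m r p q)
    (hR : ∀ j < n, ∀ w, P (b j) w → r (b j) w ≠ c j) :
    Done A ι m' P r ∧ ∀ p q, P p q → K ι m' r p q = K ι m r p q := by
  have agree : ∀ p q, P p q → ∀ v ∈ K ι m r p q, m' (r p q) v = m (r p q) v := by
    intro p q hP v hv
    by_cases haK : a ∈ K ι m r p q
    · rw [H.same (r p q)]
      intro j hj h1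
      exact hQ j hj p q hP (Or.inl h1.symm) haK
    · have hne : ∀ {u}, u ∈ K ι m r p q → u ≠ a ∧ u ≠ ι a := by
        intro u hu
        refine ⟨?_, ?_⟩
        · rintro rfl; exact haK hu
        · rintro rfl; exact haK ((cl.iota_iff hS.inv).1 hu)
      by_cases h1 : m (r p q) v = v
      · rw [h1]
        by_contra h2
        obtain ⟨j, hj, h3, h4⟩ := H.new _ v h1 h2
        have h5 := hD.end_K hS h hP hv h1
        have h6 : b j = p ∨ b j = ι p := by
          rcases h4 with h4 | h4 <;> rcases h5 with h5 | h5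
          · exact Or.inl (h4.symm.trans h5)
          · exact Or.inr (h4.symm.trans h5)
          · right
            rw [← h5, h4, hS.inv]
          · left
            apply hS.inj
            rw [← h4, h5]
        rcases h6 with h6 | h6
        · refine hR j hj q ?_ ?_
          · rw [h6]; exact hP
          · rw [h6]; exact h3
        · refine hR j hj (ι q) ?_ ?_
          · rw [h6]; exact hD.iota hP
          · rw [h6, hD.rio hP]; exact h3
      · have h2 := hne hv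
        have h3 := hne (cl.left (h.col.com _) hv)
        exact H.old _ v h1 h2.1 h2.2 h3.1 h3.2
  have agree' : ∀ p q, P p q → ∀ v ∈ K ι m r p q, m' (r q p) v = m (r q p) v := by
    intro p q hP v hv
    rw [← hD.K_symm hS h hP] at hv
    exact agree q p (hD.symm hP) v hv
  refine ⟨⟨?_, hD.symm, hD.iota, hD.rio, ?_, hD.inj, ?_⟩, ?_⟩
  · intro p q hP
    refine H.oth p q (hD.unc hP) ?_
    rintro (⟨rfl, rfl⟩ | ⟨rfl, rfl⟩ | ⟨rfl, rfl⟩ | ⟨rfl, rfl⟩)
    · exact hP0 hP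
    · exact hP0 (hD.symm hP)
    · have := hD.iota hP
      rw [hS.inv, hS.inv] at this
      exact hP0 this
    · have := hD.symm (hD.iota hP)
      rw [hS.inv, hS.inv] at this
      exact hP0 this
  · intro p q hP
    rw [agree p q hP p (cl.self _ _ _ _), hD.miss hP]
  · intro p q hP
    rw [Cl.congr (fun v hv => agree p q hP v (cl.of hv))
      (fun v hv => agree' p q hP v (cl.of hv))]
    exact hD.neg hP
  · intro p q hP
    exact cl.congr (agree p q hP) (agree' p q hP)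

/-- Colours missing at a vertex of the fan which are not reserved there are not the colours of a
chain through the centre. -/
theorem Done.fan_Q (hS : Sys A ι) (h : Mx A ι m) (hD : Done A ι m P r) {b : ℕ → V} {c : ℕ → C}
    {n : ℕ} (hu : Unc A ι m a (b 0)) (hP0 : ¬ P a (b 0)) (hF : Fan ι m a b c n)
    (hQ : ∀ j < n, ∀ p q, P p q → (c j = r p q ∨ c j = r q p) → a ∉ K ι m r p q)
    (hR : ∀ j < n, ∀ w, P (b j) w → r (b j) w ≠ c j) {γ : C} (hγ : m γ (b n) = b n)
    (hRγ : ∀ w, P (b n) w → r (b n) w ≠ γ) :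
    ∀ p q, P p q → (γ = r p q ∨ γ = r q p) → a ∉ K ι m r p q := by
  have key : ∀ p q, P p q → γ = r p q → a ∉ K ι m r p q := by
    intro p q hP hγr haK
    have hbK : b n ∉ K ι m r p q := by
      intro h1
      rcases hD.end_K hS h hP h1 (by rw [← hγr, hγ]) with h2 | h2
      · refine hRγ q ?_ ?_
        · rw [h2]; exact hP
        · rw [h2, hγr]
      · refine hRγ (ι q) ?_ ?_
        · rw [h2]; exact hD.iota hP
        · rw [h2, hD.rio hP, hγr]
    obtain ⟨m', H⟩ := h.col.shift hS hu hF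
    have hM' := h.of H.col H.N
    obtain ⟨hD', hK⟩ := hD.shift hS h hP0 H hQ hR
    have hK' := hK p q hP
    rw [← hK'] at haK hbK
    obtain ⟨m'', hM'', -, ho, hx⟩ := hM'.rotate hS (hD'.unc hP) (hD'.miss hP)
      (hD'.miss (hD'.symm hP)) haK
    have hu'' : Unc A ι m'' (b n) a := by
      have h1 := H.unc.symm hS H.col.pc
      refine ⟨h1.adj, h1.nio, fun c' => ?_⟩
      rw [ho c' (b n) hbK]
      exact h1.unc c'
    refine hM''.no hS hu'' ?_ hx
    rw [ho _ (b n) hbK]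
    refine H.last hF ?_
    rw [← hγr, hγ]
  rintro p q hP (h1 | h1)
  · exact key p q hP h1
  · rw [← hD.K_symm hS h hP]
    exact key q p (hD.symm hP) h1

/-- replacing the colour of `a (ι z)` by the colour of `a z` -/
theorem Col.flip (hS : Sys A ι) (h : Col A ι m) {δ : C} (hu : Unc A ι m a z)
    (hδ : m δ a = ι z) : ∃ m', Col A ι m' ∧ N m' = N m ∧ (∀ c' ≠ δ, m' c' = m c') ∧
      (∀ v, v ≠ a → v ≠ z → v ≠ ι a → v ≠ ι z → m' δ v = m δ v) ∧
      (∀ v, v = a ∨ v = z ∨ v = ι a ∨ v = ι z → m' δ v ≠ v) ∧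
      Unc A ι m' a (ι z) ∧
      (∀ p q, Unc A ι m p q → ¬ E4 ι a z p q → Unc A ι m' p q) := by
  have haz := hu.ne hS
  have hza := hu.nio
  have h1 : a ≠ ι z := fun h1 => hza (by rw [h1, hS.inv])
  have h2 : ι z ≠ ι a := fun h1 => haz (hS.inj h1).symm
  have hc1 := Col.rem hS h hδ h1
  have hN1 := N_tt_rem hS h hδ h1
  have hδ' := h.pc.eq hδ
  set m1 := tt ι m δ a (ι z) with hm1
  have e1 : m1 δ a = a := by rw [hm1, tt_1 hS h1 h2, hδ']
  have e2 : m1 δ (ι z) = ι z := by rw [hm1, tt_2 hS h1 h2, hδ]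
  have e3 : m1 δ z = z := by
    apply hS.inj
    rw [← hc1.com, e2]
  have hne1 : ∀ c', c' ≠ δ → m1 c' = m c' := fun c' hc' => tt_ne hc'
  have hu1 : Unc A ι m1 a z := by
    refine ⟨hu.adj, hu.nio, fun c' => ?_⟩
    by_cases hc' : c' = δ
    · rw [hc', e1]
      exact haz
    · rw [hne1 c' hc']
      exact hu.unc c'
  have hc2 := Col.add hS hc1 hu1 e1 e3
  have hN2 := N_tt_add hS hc1 hu1 e1 e3
  set m2 := tt ι m1 δ a z with hm2
  have f1 : m2 δ a = z := by rw [hm2, tt_1 hS haz hza, e3]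
  have f2 : m2 δ z = a := by rw [hm2, tt_2 hS haz hza, e1]
  have f3 : m2 δ (ι a) = ι z := by rw [hc2.com, f1]
  have f4 : m2 δ (ι z) = ι a := by rw [hc2.com, f2]
  have fo : ∀ v, v ≠ a → v ≠ z → v ≠ ι a → v ≠ ι z → m2 δ v = m δ v := by
    intro v g1 g2 g3 g4
    rw [hm2, tt_other g1 g2 g3 g4, hm1, tt_other g1 g4 g3 (by rw [hS.inv]; exact g2)]
  have hne2 : ∀ c', c' ≠ δ → m2 c' = m c' := by
    intro c' hc'
    rw [hm2, tt_ne hc', hne1 c' hc']
  refine ⟨m2, hc2, by omega, hne2, fo, ?_, ?_, ?_⟩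
  · rintro v (rfl | rfl | rfl | rfl)
    · rw [f1]; exact haz.symm
    · rw [f2]; exact haz
    · rw [f3]; exact h2
    · rw [f4]; exact h2.symm
  · refine ⟨?_, h2, fun c' g => ?_⟩
    · have := h.pc.adj δ a
      rw [hδ] at this
      exact this h1.symm
    · by_cases hc' : c' = δ
      · rw [hc', f1] at g
        exact hS.ne z g.symm
      · rw [hne2 c' hc'] at g
        exact hc' (h.pc.unq c' δ a (by rw [g, hδ]) (by rw [g]; exact h1.symm))
  · intro p q hpq h4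
    refine ⟨hpq.adj, hpq.nio, fun c' g => ?_⟩
    by_cases hc' : c' = δ
    · rw [hc'] at g
      by_cases i1 : p = a
      · rw [i1, f1] at g
        exact h4 (Or.inl ⟨i1, g.symm⟩)
      by_cases i2 : p = z
      · rw [i2, f2] at g
        exact h4 (Or.inr (Or.inl ⟨i2, g.symm⟩))
      by_cases i3 : p = ι a
      · rw [i3, f3] at g
        exact h4 (Or.inr (Or.inr (Or.inl ⟨i3, g.symm⟩)))
      by_cases i4 : p = ι z
      · rw [i4, f4] at g
        exact h4 (Or.inr (Or.inr (Or.inr ⟨i4, g.symm⟩)))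
      rw [fo p i1 i2 i3 i4] at g
      exact hpq.unc _ g
    · rw [hne2 c' hc'] at g
      exact hpq.unc _ g

/-- adding an edge with a negative chain -/
theorem Done.extend (hS : Sys A ι) (h : Mx A ι m) (hD : Done A ι m P r) (hu : Unc A ι m a z)
    (hα : m α a = a) (hβ : m β z = z) (hαR : ∀ w, P a w → r a w ≠ α)
    (hβR : ∀ w, P z w → r z w ≠ β) (hneg : z ∉ Cl (m α) (m β) a) :
    ∃ r', Done A ι m (fun p q => P p q ∨ E4 ι a z p q) r' := by
  have haz := hu.ne hS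
  have hza := hu.nio
  have hza' : ι z ≠ a := fun h1 => hza (by rw [← h1, hS.inv])
  have hιι : ι z ≠ ι a := fun h1 => haz (hS.inj h1).symm
  have hPι : ∀ {p q}, P (ι p) (ι q) → P p q := by
    intro p q hP
    have := hD.iota hP
    rwa [hS.inv, hS.inv] at this
  classical
  let r' : V → V → C := fun p q =>
    if (p = a ∧ q = z) ∨ (p = ι a ∧ q = ι z) then α else
    if (p = z ∧ q = a) ∨ (p = ι z ∧ q = ι a) then β else r p q
  have r1 : ∀ {p q}, ((p = a ∧ q = z) ∨ (p = ι a ∧ q = ι z)) → r' p q = α := by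
    intro p q h1
    exact if_pos h1
  have r2 : ∀ {p q}, ((p = z ∧ q = a) ∨ (p = ι z ∧ q = ι a)) → r' p q = β := by
    intro p q h1
    have h2 : ¬ ((p = a ∧ q = z) ∨ (p = ι a ∧ q = ι z)) := by
      rintro (⟨h3, h4⟩ | ⟨h3, h4⟩) <;> rcases h1 with ⟨h5, h6⟩ | ⟨h5, h6⟩
      · exact haz (h3.symm.trans h5)
      · exact hza' (h5.symm.trans h3)
      · exact hza (h5.symm.trans h3)
      · exact hιι (h5.symm.trans h3)
    show (if _ then α else _) = β
    rw [if_neg h2, if_pos h1]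
  have r3 : ∀ {p q}, ¬ E4 ι a z p q → r' p q = r p q := by
    intro p q h1
    show (if _ then α else _) = r p q
    rw [if_neg, if_neg]
    · rintro (h2 | h2)
      · exact h1 (Or.inr (Or.inl h2))
      · exact h1 (Or.inr (Or.inr (Or.inr h2)))
    · rintro (h2 | h2)
      · exact h1 (Or.inl h2)
      · exact h1 (Or.inr (Or.inr (Or.inl h2)))
  have Es : ∀ {p q}, E4 ι a z p q → E4 ι a z q p := by
    rintro p q (⟨h1, h2⟩ | ⟨h1, h2⟩ | ⟨h1, h2⟩ | ⟨h1, h2⟩)
    · exact Or.inr (Or.inl ⟨h2, h1⟩)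
    · exact Or.inl ⟨h2, h1⟩
    · exact Or.inr (Or.inr (Or.inr ⟨h2, h1⟩))
    · exact Or.inr (Or.inr (Or.inl ⟨h2, h1⟩))
  have Ei : ∀ {p q}, E4 ι a z p q → E4 ι a z (ι p) (ι q) := by
    rintro p q (⟨rfl, rfl⟩ | ⟨rfl, rfl⟩ | ⟨rfl, rfl⟩ | ⟨rfl, rfl⟩)
    · exact Or.inr (Or.inr (Or.inl ⟨rfl, rfl⟩))
    · exact Or.inr (Or.inr (Or.inr ⟨rfl, rfl⟩))
    · exact Or.inl ⟨hS.inv _, hS.inv _⟩
    · exact Or.inr (Or.inl ⟨hS.inv _, hS.inv _⟩)
  have Ei' : ∀ {p q}, E4 ι a z (ι p) (ι q) → E4 ι a z p q := by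
    intro p q h1
    have := Ei h1
    rwa [hS.inv, hS.inv] at this
  -- the reserved colour of the new edge
  have hres : ∀ {p q}, E4 ι a z p q → m (r' p q) p = p ∧ (∀ w, P p w → r p w ≠ r' p q) := by
    rintro p q (⟨rfl, rfl⟩ | ⟨rfl, rfl⟩ | ⟨rfl, rfl⟩ | ⟨rfl, rfl⟩)
    · rw [r1 (Or.inl ⟨rfl, rfl⟩)]
      exact ⟨hα, hαR⟩
    · rw [r2 (Or.inl ⟨rfl, rfl⟩)]
      exact ⟨hβ, hβR⟩
    · rw [r1 (Or.inr ⟨rfl, rfl⟩)]
      refine ⟨by rw [h.col.com, hα], fun w hw => ?_⟩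
      have h1 : P a (ι w) := hPι (by rw [hS.inv]; exact hw)
      have h2 := hD.rio h1
      rw [hS.inv] at h2
      rw [h2]
      exact hαR _ h1
    · rw [r2 (Or.inr ⟨rfl, rfl⟩)]
      refine ⟨by rw [h.col.com, hβ], fun w hw => ?_⟩
      have h1 : P z (ι w) := hPι (by rw [hS.inv]; exact hw)
      have h2 := hD.rio h1
      rw [hS.inv] at h2
      rw [h2]
      exact hβR _ h1
  -- the chain of the new edge
  have hzK := h.kempe hS hu hα hβ
  have hneg2 : a ∉ Cl (m β) (m α) z := by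
    intro h1
    exact hneg (Cl.comm_iff.1 (Cl.symm (h.col.pc.inv β) (h.col.pc.inv α) h1))
  have hPcase : ∀ {p q}, (P p q ∨ E4 ι a z p q) → (P p q ∧ ¬ E4 ι a z p q) ∨ E4 ι a z p q := by
    intro p q h1
    by_cases h2 : E4 ι a z p q
    · exact Or.inr h2
    · exact Or.inl ⟨h1.resolve_right h2, h2⟩
  refine ⟨r', ⟨?_, ?_, ?_, ?_, ?_, ?_, ?_⟩⟩
  · rintro p q (h1 | h1)
    · exact hD.unc h1
    · rcases h1 with ⟨rfl, rfl⟩ | ⟨rfl, rfl⟩ | ⟨rfl, rfl⟩ | ⟨rfl, rfl⟩
      · exact hu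
      · exact hu.symm hS h.col.pc
      · exact hu.iota hS h.col.com
      · exact (hu.symm hS h.col.pc).iota hS h.col.com
  · rintro p q (h1 | h1)
    · exact Or.inl (hD.symm h1)
    · exact Or.inr (Es h1)
  · rintro p q (h1 | h1)
    · exact Or.inl (hD.iota h1)
    · exact Or.inr (Ei h1)
  · intro p q h1
    rcases hPcase h1 with ⟨h1, h2⟩ | h2
    · rw [r3 h2, r3 (fun h3 => h2 (Ei' h3))]
      exact hD.rio h1
    · rcases h2 with ⟨rfl, rfl⟩ | ⟨rfl, rfl⟩ | ⟨rfl, rfl⟩ | ⟨rfl, rfl⟩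
      · rw [r1 (Or.inl ⟨rfl, rfl⟩), r1 (Or.inr ⟨rfl, rfl⟩)]
      · rw [r2 (Or.inl ⟨rfl, rfl⟩), r2 (Or.inr ⟨rfl, rfl⟩)]
      · rw [hS.inv, hS.inv, r1 (Or.inl ⟨rfl, rfl⟩), r1 (Or.inr ⟨rfl, rfl⟩)]
      · rw [hS.inv, hS.inv, r2 (Or.inl ⟨rfl, rfl⟩), r2 (Or.inr ⟨rfl, rfl⟩)]
  · intro p q h1
    rcases hPcase h1 with ⟨h1, h2⟩ | h2
    · rw [r3 h2]
      exact hD.miss h1
    · exact (hres h2).1
  · intro p q q' h1 h1' heq
    rcases hPcase h1 with ⟨h1, h2⟩ | h2 <;> rcases hPcase h1' with ⟨h1', h2'⟩ | h2'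
    · rw [r3 h2, r3 h2'] at heq
      exact hD.inj h1 h1' heq
    · rw [r3 h2] at heq
      exact absurd heq ((hres h2').2 q h1)
    · rw [r3 h2'] at heq
      exact absurd heq.symm ((hres h2).2 q' h1')
    · rcases h2 with ⟨h3, h4⟩ | ⟨h3, h4⟩ | ⟨h3, h4⟩ | ⟨h3, h4⟩ <;>
      rcases h2' with ⟨h5, h6⟩ | ⟨h5, h6⟩ | ⟨h5, h6⟩ | ⟨h5, h6⟩
      · exact h4.trans h6.symm
      · exact absurd (h3.symm.trans h5) haz
      · exact absurd (h3.symm.trans h5) (hS.ne a).symm
      · exact absurd (h3.symm.trans h5) hza'.symm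
      · exact absurd (h3.symm.trans h5) haz.symm
      · exact h4.trans h6.symm
      · exact absurd (h3.symm.trans h5) hza
      · exact absurd (h3.symm.trans h5) (hS.ne z).symm
      · exact absurd (h3.symm.trans h5) (hS.ne a)
      · exact absurd (h3.symm.trans h5) hza.symm
      · exact h4.trans h6.symm
      · exact absurd (h3.symm.trans h5) hιι.symm
      · exact absurd (h3.symm.trans h5) hza'
      · exact absurd (h3.symm.trans h5) (hS.ne z)
      · exact absurd (h3.symm.trans h5) hιι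
      · exact h4.trans h6.symm
  · intro p q h1
    rcases hPcase h1 with ⟨h1, h2⟩ | h2
    · rw [r3 h2, r3 (fun h3 => h2 (Es h3))]
      exact hD.neg h1
    · have hmap : ∀ {α β : C} {x y : V}, y ∉ Cl (m α) (m β) x → ι y ∉ Cl (m α) (m β) (ι x) := by
        intro α β x y h3 h4
        apply h3
        have h5 := Cl.map (h.col.com α) (h.col.com β) h4
        rwa [hS.inv, hS.inv] at h5
      rcases h2 with ⟨rfl, rfl⟩ | ⟨rfl, rfl⟩ | ⟨rfl, rfl⟩ | ⟨rfl, rfl⟩
      · rw [r1 (Or.inl ⟨rfl, rfl⟩), r2 (Or.inl ⟨rfl, rfl⟩)]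
        exact hneg
      · rw [r1 (Or.inl ⟨rfl, rfl⟩), r2 (Or.inl ⟨rfl, rfl⟩)]
        exact hneg2
      · rw [r1 (Or.inr ⟨rfl, rfl⟩), r2 (Or.inr ⟨rfl, rfl⟩)]
        exact hmap hneg
      · rw [r1 (Or.inr ⟨rfl, rfl⟩), r2 (Or.inr ⟨rfl, rfl⟩)]
        exact hmap hneg2

end Pool.Agent.T9h84.WR
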