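import Pool.Agent.T9h84.WR.Rot

set_option autoImplicit false
set_option linter.unusedSectionVars false

/-!
# Shifting an uncoloured edge along a fan
-/

namespace Pool.Agent.T9h84.WR

open Finset

variable {V C : Type*} [DecidableEq V] [Fintype V] [Fintype C] [DecidableEq C]
  {A : V → V → Prop} {ι : V → V} {m : C → V → V} {a v w z : V} {α β : C}

/-- the edge `p q` is the edge `a b` or its image -/
def E4 (ι : V → V) (a b p q : V) : Prop :=
  (p = a ∧ q = b) ∨ (p = b ∧ q = a) ∨ (p = ι a ∧ q = ι b) ∨ (p = ι b ∧ q = ι a)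

/-- a fan at `a` with the vertices `b 0, …, b n` -/
structure Fan (ι : V → V) (m : C → V → V) (a : V) (b : ℕ → V) (c : ℕ → C) (n : ℕ) : Prop where
  miss : ∀ j < n, m (c j) (b j) = b j
  edge : ∀ j < n, m (c j) a = b (j + 1)
  na : ∀ j < n, b (j + 1) ≠ a
  dist : ∀ i j, i < j → j ≤ n → b j ≠ b i ∧ b j ≠ ι (b i)

theorem Fan.pre {b : ℕ → V} {c : ℕ → C} {n k : ℕ} (h : Fan ι m a b c n) (hk : k ≤ n) :
    Fan ι m a b c k where
  miss j hj := h.miss j (by omega)
  edge j hj := h.edge j (by omega)
  na j hj := h.na j (by omega)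
  dist i j hij hj := h.dist i j hij (by omega)

/-- the result of shifting the uncoloured edge along a fan -/
structure Shifted (A : V → V → Prop) (ι : V → V) (m m' : C → V → V) (a : V) (b : ℕ → V)
    (c : ℕ → C) (n : ℕ) : Prop where
  col : Col A ι m'
  N : N m' = N m
  unc : Unc A ι m' a (b n)
  ma : ∀ c', m c' a = a → m' c' a = a
  same : ∀ c', (∀ j < n, c' ≠ c j) → m' c' = m c'
  new : ∀ c' v, m c' v = v → m' c' v ≠ v → ∃ j < n, c' = c j ∧ (v = b j ∨ v = ι (b j))
  old : ∀ c' v, m c' v ≠ v → v ≠ a → v ≠ ι a → m c' v ≠ a → m c' v ≠ ι a → m' c' v = m c' v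
  oth : ∀ p q, Unc A ι m p q → ¬ E4 ι a (b 0) p q → Unc A ι m' p q

theorem Col.shift (hS : Sys A ι) (h : Col A ι m) {b : ℕ → V} {c : ℕ → C}
    (hu : Unc A ι m a (b 0)) {n : ℕ} (hF : Fan ι m a b c n) :
    ∃ m', Shifted A ι m m' a b c n := by
  induction n with
  | zero => exact ⟨m, h, rfl, hu, fun _ h => h, fun _ _ => rfl, fun _ _ h1 h2 => absurd h1 h2,
      fun _ _ _ _ _ _ _ => rfl, fun _ _ h _ => h⟩
  | succ n ih =>
    obtain ⟨m1, H1⟩ := ih (hF.pre (Nat.le_succ n))
    have hcn : ∀ j < n, c n ≠ c j := by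
      intro j hj h1
      have h2 := hF.edge n (Nat.lt_succ_self n)
      have h3 := hF.edge j (by omega)
      rw [h1, h3] at h2
      exact (hF.dist (j + 1) (n + 1) (by omega) le_rfl).1 h2.symm
    have hbn : m1 (c n) (b n) = b n := by
      by_contra h1
      obtain ⟨j, hj, h2, -⟩ := H1.new (c n) (b n) (hF.miss n (Nat.lt_succ_self n)) h1
      exact hcn j hj h2
    have h1n : m1 (c n) = m (c n) := H1.same (c n) hcn
    have han : m1 (c n) a = b (n + 1) := by rw [h1n, hF.edge n (Nat.lt_succ_self n)]
    have hna := hF.na n (Nat.lt_succ_self n)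
    obtain ⟨m2, h2, h2N, hne, e1, e2, e3, e4, e5, e6, e7, e8⟩ :=
      H1.col.step hS H1.unc hbn han hna
    have hz := H1.col.pc.eq han
    -- edges without a colour in `m` are different from the edge `a (b n)`
    have key : ∀ p q, Unc A ι m p q → ¬ E4 ι a (b 0) p q → p = a → q ≠ b n := by
      rintro p q hpq h4 rfl h5
      rcases n with _ | n
      · exact h4 (Or.inl ⟨rfl, h5⟩)
      · exact hpq.unc (c n) (by rw [hF.edge n (by omega), h5])
    have E4s : ∀ p q, E4 ι a (b 0) q p → E4 ι a (b 0) p q := by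
      rintro p q (⟨h1, h2⟩ | ⟨h1, h2⟩ | ⟨h1, h2⟩ | ⟨h1, h2⟩)
      · exact Or.inr (Or.inl ⟨h2, h1⟩)
      · exact Or.inl ⟨h2, h1⟩
      · exact Or.inr (Or.inr (Or.inr ⟨h2, h1⟩))
      · exact Or.inr (Or.inr (Or.inl ⟨h2, h1⟩))
    have E4i : ∀ p q, E4 ι a (b 0) (ι p) (ι q) → E4 ι a (b 0) p q := by
      rintro p q (⟨h1, h2⟩ | ⟨h1, h2⟩ | ⟨h1, h2⟩ | ⟨h1, h2⟩)
      · exact Or.inr (Or.inr (Or.inl ⟨hS.eq_iff.1 h1, hS.eq_iff.1 h2⟩))
      · exact Or.inr (Or.inr (Or.inr ⟨hS.eq_iff.1 h1, hS.eq_iff.1 h2⟩))
      · exact Or.inl ⟨hS.inj h1, hS.inj h2⟩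
      · exact Or.inr (Or.inl ⟨hS.inj h1, hS.inj h2⟩)
    refine ⟨m2, h2, h2N.trans H1.N, e8, ?_, ?_, ?_, ?_, ?_⟩
    · intro c' hc'
      have h3 := H1.ma c' hc'
      have h4 : c' ≠ c n := by
        rintro rfl
        exact hna (han.symm.trans h3)
      rw [hne c' h4, h3]
    · intro c' hc'
      rw [hne c' (hc' n (Nat.lt_succ_self n)), H1.same c' (fun j hj => hc' j (by omega))]
    · intro c' v h3 h4
      by_cases h5 : m1 c' v = v
      · have h6 : c' = c n := by
          by_contra h6
          rw [hne c' h6] at h4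
          exact h4 h5
        subst h6
        refine ⟨n, Nat.lt_succ_self n, rfl, ?_⟩
        by_contra h7
        push Not at h7
        apply h4
        by_cases h8 : v = b (n + 1)
        · rw [h8, e5]
        by_cases h9 : v = ι (b (n + 1))
        · rw [h9, e6]
        rw [e7 v ?_ h7.1 ?_ h7.2 h8 h9, h5]
        · rintro rfl
          exact hna (han.symm.trans h5)
        · rintro rfl
          rw [H1.col.com, han] at h5
          exact hna (hS.inj h5)
      · obtain ⟨j, hj, h6⟩ := H1.new c' v h3 h5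
        exact ⟨j, by omega, h6⟩
    · intro c' v h3 h4 h5 h6 h7
      have h8 := H1.old c' v h3 h4 h5 h6 h7
      by_cases h9 : c' = c n
      · subst h9
        rw [← h8] at h3 h6 h7
        rw [e7 v h4 ?_ h5 ?_ ?_ ?_, h8]
        · rintro rfl
          exact h3 hbn
        · rintro rfl
          rw [H1.col.com, hbn] at h3
          exact h3 rfl
        · rintro rfl
          exact h6 hz
        · rintro rfl
          rw [H1.col.com, hz] at h7
          exact h7 rfl
      · rw [hne c' h9, h8]
    · intro p q hpq h4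
      have h5 := H1.oth p q hpq h4
      refine ⟨hpq.adj, hpq.nio, fun c' h6 => ?_⟩
      by_cases h9 : c' = c n
      · subst h9
        by_cases i1 : p = a
        · rw [i1, e1] at h6
          exact key p q hpq h4 i1 h6.symm
        by_cases i2 : p = b n
        · rw [i2, e2] at h6
          exact key q p (hpq.symm hS h.pc) (fun h7 => h4 (E4s _ _ h7)) h6.symm i2
        by_cases i3 : p = ι a
        · rw [i3, e3] at h6
          refine key (ι p) (ι q) (hpq.iota hS h.com) (fun h7 => h4 (E4i _ _ h7)) ?_ ?_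
          · rw [i3, hS.inv]
          · rw [← h6, hS.inv]
        by_cases i4 : p = ι (b n)
        · rw [i4, e4] at h6
          refine key (ι q) (ι p) ((hpq.iota hS h.com).symm hS h.pc)
            (fun h7 => h4 (E4i _ _ (E4s _ _ h7))) ?_ ?_
          · rw [← h6, hS.inv]
          · rw [i4, hS.inv]
        by_cases i5 : p = b (n + 1)
        · rw [i5, e5] at h6
          exact (hpq.ne hS) (i5.trans h6)
        by_cases i6 : p = ι (b (n + 1))
        · rw [i6, e6] at h6
          exact (hpq.ne hS) (i6.trans h6)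
        rw [e7 p i1 i2 i3 i4 i5 i6] at h6
        exact h5.unc _ h6
      · rw [hne c' h9] at h6
        exact h5.unc c' h6

/-- a colour missing at the last vertex of the fan is still missing there after the shift -/
theorem Shifted.last {m' : C → V → V} {b : ℕ → V} {c : ℕ → C} {n : ℕ}
    (H : Shifted A ι m m' a b c n) (hF : Fan ι m a b c n) {c' : C} (h : m c' (b n) = b n) :
    m' c' (b n) = b n := by
  by_contra h1
  obtain ⟨j, hj, -, h2 | h2⟩ := H.new c' _ h h1
  · exact (hF.dist j n hj le_rfl).1 h2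
  · exact (hF.dist j n hj le_rfl).2 h2

/-- In a colouring with the largest number of coloured edges no colour is missing at the centre and
at the last vertex of a fan. -/
theorem Mx.fan_no (hS : Sys A ι) (h : Mx A ι m) {b : ℕ → V} {c : ℕ → C}
    (hu : Unc A ι m a (b 0)) {n : ℕ} (hF : Fan ι m a b c n) {γ : C} (h1 : m γ a = a)
    (h2 : m γ (b n) = b n) : False := by
  obtain ⟨m', H⟩ := h.col.shift hS hu hF
  exact (h.of H.col H.N).no hS H.unc (H.ma γ h1) (H.last hF h2)

/-- In a colouring with the largest number of coloured edges no colour is missing at two different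
vertices of a fan. -/
theorem Mx.fan_two (hS : Sys A ι) (h : Mx A ι m) {b : ℕ → V} {c : ℕ → C}
    (hu : Unc A ι m a (b 0)) {n : ℕ} (hF : Fan ι m a b c n) {α γ : C} (hα : m α a = a) {i : ℕ}
    (hi : i < n) (h1 : c i = γ) (h2 : m γ (b n) = b n) : False := by
  have hγi : m γ (b i) = b i := by
    rw [← h1]
    exact hF.miss i hi
  have hγa : m γ a = b (i + 1) := by
    rw [← h1]
    exact hF.edge i hi
  have hb1 := hF.na i hi
  have hγα : γ ≠ α := by
    rintro rfl
    exact hb1 (hγa.symm.trans hα)
  have hba : ∀ j ≤ n, b j ≠ a ∧ b j ≠ ι a := by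
    intro j hj
    rcases j with _ | j
    · exact ⟨(hu.ne hS).symm, hu.nio⟩
    · refine ⟨hF.na j (by omega), ?_⟩
      rw [← hF.edge j (by omega)]
      exact h.col.pc.nio _ _
  have hcα : ∀ j < n, c j ≠ α := by
    intro j hj h3
    apply hF.na j hj
    rw [← hF.edge j hj, h3, hα]
  have hcγ : ∀ j < n, c j = γ → j = i := by
    intro j hj h3
    have h4 := hF.edge j hj
    rw [h3, hγa] at h4
    rcases lt_trichotomy j i with h5 | h5 | h5
    · exact absurd h4 (hF.dist (j + 1) (i + 1) (by omega) (by omega)).1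
    · exact h5
    · exact absurd h4.symm (hF.dist (i + 1) (j + 1) (by omega) (by omega)).1
  have hM' : Mx A ι (sw m α γ (cl ι (m α) (m γ) a)) := h.of (Col.swap hS h.col) N_sw
  set m' := sw m α γ (cl ι (m α) (m γ) a) with hm'
  have hu' : Unc A ι m' a (b 0) := hu.sw
  have haγ : m' γ a = a := by rw [hm', sw_right (cl.self _ _ _ _), hα]
  by_cases hiK : b i ∈ cl ι (m α) (m γ) a
  · -- the last vertex is not in the chain
    have hnK : b n ∉ cl ι (m α) (m γ) a := by
      intro hnK
      have h3 := Col.ends hS h.col hα hiK hnK (hba i (by omega)).1 (hba i (by omega)).2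
        (hba n le_rfl).1 (hba n le_rfl).2 (Or.inr hγi) (Or.inr h2)
      have h4 := hF.dist i n hi le_rfl
      rcases h3 with h3 | h3
      · exact h4.1 h3
      · exact h4.2 h3
    let c' : ℕ → C := fun j => if j = i then α else c j
    have hF' : Fan ι m' a b c' n := by
      refine ⟨?_, ?_, hF.na, hF.dist⟩
      · intro j hj
        by_cases hji : j = i
        · subst hji
          simp only [c', if_pos]
          rw [hm', sw_left hiK, hγi]
        · simp only [c', if_neg hji]
          rw [hm', sw_ne (hcα j hj) (fun h3 => hji (hcγ j hj h3))]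
          exact hF.miss j hj
      · intro j hj
        by_cases hji : j = i
        · subst hji
          simp only [c', if_pos]
          rw [hm', sw_left (cl.self _ _ _ _), hγa]
        · simp only [c', if_neg hji]
          rw [hm', sw_ne (hcα j hj) (fun h3 => hji (hcγ j hj h3))]
          exact hF.edge j hj
    refine hM'.fan_no hS hu' hF' haγ ?_
    rw [hm', sw_out hnK, h2]
  · have hF' : Fan ι m' a b c i := by
      have h0 := hF.pre hi.le
      refine ⟨?_, ?_, h0.na, h0.dist⟩
      · intro j hj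
        rw [hm', sw_ne (hcα j (by omega)) (fun h3 => by
          have := hcγ j (by omega) h3
          omega)]
        exact hF.miss j (by omega)
      · intro j hj
        rw [hm', sw_ne (hcα j (by omega)) (fun h3 => by
          have := hcγ j (by omega) h3
          omega)]
        exact hF.edge j (by omega)
    refine hM'.fan_no hS hu' hF' haγ ?_
    rw [hm', sw_out hiK, hγi]

end Pool.Agent.T9h84.WR
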