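import Pool.Agent.T9h84.WR.Aug
import Pool.Agent.X76.Wreath

set_option autoImplicit false
set_option linter.unusedSectionVars false

/-!
# The final colouring
-/

namespace Pool.Agent.T9h84.WR

open Finset

variable {V C : Type*} [DecidableEq V] [Fintype V] [Fintype C] [DecidableEq C]
  {A : V → V → Prop} {ι : V → V} {m M : C → V → V} {a b v w z : V} {α β : C}
  {r : V → V → C}

/-- states of the recolouring -/
structure St (A : V → V → Prop) (ι : V → V) (m : C → V → V) (r : V → V → C) (M : C → V → V) :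
    Prop where
  pc : PC A ι M
  keep : ∀ c v, m c v ≠ v → ∃ c', M c' v = m c v
  io : ∀ p q, Unc A ι m p q → (∀ c, M c p ≠ q) → ∀ c, M c (ι p) ≠ ι q
  same : ∀ p q, Unc A ι m p q → (∀ c, M c p ≠ q) → ∀ v ∈ K ι m r p q, M (r p q) v = m (r p q) v
  free : ∀ c v, m c v = v → (∀ w, Unc A ι m v w → r v w ≠ c) → M c v = v

theorem sw_keep {S : Set V} {c : C} : ∃ c', sw M α β S c' v = M c v := by
  by_cases hv : v ∈ S
  · exact ⟨Equiv.swap α β c, by rw [sw_in hv, Equiv.swap_apply_self]⟩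
  · exact ⟨c, sw_out hv⟩

theorem tg_keep {c d : C} (ha : M d a = a) (hb : M d b = b) (hv : M c v ≠ v) :
    tg M d a b c v = M c v := by
  by_cases h : c = d
  · subst h
    refine tg_other ?_ ?_
    · rintro rfl; exact hv ha
    · rintro rfl; exact hv hb
  · rw [tg_ne h]

theorem St.step (hS : Sys A ι) (h : Mx A ι m) (hD : Done A ι m (Unc A ι m) r)
    (hM : St A ι m r M) {p q : V} (hu : Unc A ι m p q) (hun : ∀ c, M c p ≠ q) :
    ∃ M', St A ι m r M' ∧ N M < N M' := by
  have hpq := hu.ne hS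
  have hqp := hu.nio
  have hqp' : ι q ≠ p := fun h1 => hqp (by rw [← h1, hS.inv])
  have hιι : ι q ≠ ι p := fun h1 => hpq (hS.inj h1).symm
  have hu' := hu.symm hS h.col.pc
  have hun' : ∀ c, M c q ≠ p := fun c h1 => hun c (hM.pc.eq h1)
  have sα := hM.same p q hu hun
  have sβ := hM.same q p hu' hun'
  rw [hD.K_symm hS h hu] at sβ
  have hα : m (r p q) p = p := hD.miss hu
  have hβ : m (r q p) q = q := hD.miss hu'
  have hneg : q ∉ Cl (m (r p q)) (m (r q p)) p := hD.neg hu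
  have hαβ : r p q ≠ r q p := by
    intro h1
    exact h.no hS hu hα (by rw [h1, hβ])
  have hpK : p ∈ K ι m r p q := cl.self _ _ _ _
  have hqK : q ∈ K ι m r p q := hD.mem_K hS h hu
  have hιpK : ι p ∈ K ι m r p q := cl.iota hS.inv hpK
  have hιqK : ι q ∈ K ι m r p q := cl.iota hS.inv hqK
  set X := Cl (m (r p q)) (m (r q p)) p with hX
  have hXK : ∀ v ∈ X, v ∈ K ι m r p q := fun v hv => cl.of hv
  have hpX : p ∈ X := Cl.self _ _ _
  have hιqX : ι q ∈ X := by
    rcases hqK with h1 | h1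
    · exact absurd h1 hneg
    · exact h1
  have hιpX : ι p ∉ X := by
    intro h1
    have h2 := Cl.ends (h.col.pc.inv (r p q)) (h.col.pc.inv (r q p)) hα h1 hιqX (hS.ne p) hqp'
      (Or.inl (by rw [h.col.com, hα])) (Or.inr (by rw [h.col.com, hβ]))
    exact hιι h2.symm
  have h1 : PC A ι (sw M (r p q) (r q p) X) := by
    refine hM.pc.sw ?_ ?_
    · intro v hv
      rw [sα v (hXK v hv)]
      exact Cl.left hv
    · intro v hv
      rw [sβ v (hXK v hv)]
      exact Cl.right hv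
  set M1 := sw M (r p q) (r q p) X with hM1
  have a1 : M1 (r q p) p = p := by rw [hM1, sw_right hpX, sα p hpK, hα]
  have a2 : M1 (r q p) q = q := by rw [hM1, sw_out hneg, sβ q hqK, hβ]
  have a3 : M1 (r p q) (ι p) = ι p := by
    rw [hM1, sw_out hιpX, sα _ hιpK, h.col.com, hα]
  have a4 : M1 (r p q) (ι q) = ι q := by
    rw [hM1, sw_left hιqX, sβ _ hιqK, h.col.com, hβ]
  have hM1u : ∀ x y, (∀ c, M c x ≠ y) → ∀ c, M1 c x ≠ y := by
    intro x y hxy c h2
    obtain ⟨c', h3⟩ := sw_exists (m := M) (α := r p q) (β := r q p) (S := X) c x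
    exact hxy c' (h3.symm.trans h2)
  have hu1 : Unc A ι M1 p q := ⟨hu.adj, hu.nio, hM1u p q hun⟩
  have h2 := h1.add hS hu1 a1 a2
  set M2 := tg M1 (r q p) p q with hM2
  have hιu := hu.iota hS h.col.com
  have hu2 : Unc A ι M2 (ι p) (ι q) := by
    refine ⟨hιu.adj, hιu.nio, fun c => ?_⟩
    rw [hM2, tg_other (hS.ne p) hqp.symm]
    exact hM1u _ _ (hM.io p q hu hun) c
  have b3 : M2 (r p q) (ι p) = ι p := by rw [hM2, tg_ne hαβ, a3]
  have b4 : M2 (r p q) (ι q) = ι q := by rw [hM2, tg_ne hαβ, a4]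
  have h3 := h2.add hS hu2 b3 b4
  have hN : N (tg M2 (r p q) (ι p) (ι q)) = N M + 4 := by
    rw [N_add hιι.symm b3 b4, hM2, N_add hpq a1 a2, hM1, N_sw]
  set M3 := tg M2 (r p q) (ι p) (ι q) with hM3
  -- values
  have c1 : M3 (r q p) p = q := by rw [hM3, tg_ne hαβ.symm, hM2, tg_left, a2]
  have c2 : M3 (r q p) q = p := h3.eq c1
  have c3 : M3 (r p q) (ι p) = ι q := by rw [hM3, tg_left, b4]
  have c4 : M3 (r p q) (ι q) = ι p := h3.eq c3
  have hkeep : ∀ c v, M c v ≠ v → ∃ c', M3 c' v = M c v := by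
    intro c v hv
    obtain ⟨c', h4⟩ := sw_keep (M := M) (α := r p q) (β := r q p) (S := X) (c := c) (v := v)
    refine ⟨c', ?_⟩
    have h5 : M1 c' v = M c v := h4
    have h6 : M2 c' v = M1 c' v := tg_keep a1 a2 (by rw [h5]; exact hv)
    have h7 : M3 c' v = M2 c' v := tg_keep b3 b4 (by rw [h6, h5]; exact hv)
    rw [h7, h6, h5]
  have hout : ∀ c v, v ∉ K ι m r p q → M3 c v = M c v := by
    intro c v hv
    have e1 : v ≠ p := by rintro rfl; exact hv hpK
    have e2 : v ≠ q := by rintro rfl; exact hv hqK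
    have e3 : v ≠ ι p := by rintro rfl; exact hv hιpK
    have e4 : v ≠ ι q := by rintro rfl; exact hv hιqK
    rw [hM3, tg_other e3 e4, hM2, tg_other e1 e2, hM1, sw_out (fun h4 => hv (hXK v h4))]
  have hother : ∀ c, c ≠ r p q → c ≠ r q p → M3 c = M c := by
    intro c e1 e2
    rw [hM3, tg_ne e1, hM2, tg_ne e2, hM1, sw_ne e1 e2]
  -- pairs without a colour in `M3`
  have hunc3 : ∀ x y, (∀ c, M3 c x ≠ y) → (Unc A ι m x y) → (∀ c, M c x ≠ y) ∧ ¬ E4 ι p q x y := by
    intro x y hxy hux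
    refine ⟨fun c h4 => ?_, ?_⟩
    · obtain ⟨c', h5⟩ := hkeep c x (by rw [h4]; exact (hux.ne hS).symm)
      exact hxy c' (by rw [h5, h4])
    · rintro (⟨rfl, rfl⟩ | ⟨rfl, rfl⟩ | ⟨rfl, rfl⟩ | ⟨rfl, rfl⟩)
      · exact hxy _ c1
      · exact hxy _ c2
      · exact hxy _ c3
      · exact hxy _ c4
  have hunc3' : ∀ x y, Unc A ι m x y → (∀ c, M c x ≠ y) → ¬ E4 ι p q x y → ∀ c, M3 c x ≠ y := by
    intro x y hux hxy h4 c h5
    by_cases e1 : c = r p q ∧ (x = ι p ∨ x = ι q)
    · obtain ⟨rfl, rfl | rfl⟩ := e1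
      · rw [c3] at h5
        exact h4 (Or.inr (Or.inr (Or.inl ⟨rfl, h5.symm⟩)))
      · rw [c4] at h5
        exact h4 (Or.inr (Or.inr (Or.inr ⟨rfl, h5.symm⟩)))
    have h6 : M3 c x = M2 c x := by
      by_cases h7 : c = r p q
      · rw [hM3, tg_other (fun h8 => e1 ⟨h7, Or.inl h8⟩) (fun h8 => e1 ⟨h7, Or.inr h8⟩)]
      · rw [hM3, tg_ne h7]
    by_cases e2 : c = r q p ∧ (x = p ∨ x = q)
    · obtain ⟨rfl, rfl | rfl⟩ := e2
      · rw [c1] at h5
        exact h4 (Or.inl ⟨rfl, h5.symm⟩)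
      · rw [c2] at h5
        exact h4 (Or.inr (Or.inl ⟨rfl, h5.symm⟩))
    have h7 : M2 c x = M1 c x := by
      by_cases h8 : c = r q p
      · rw [hM2, tg_other (fun h9 => e2 ⟨h8, Or.inl h9⟩) (fun h9 => e2 ⟨h8, Or.inr h9⟩)]
      · rw [hM2, tg_ne h8]
    rw [h6, h7] at h5
    exact hM1u x y hxy c h5
  refine ⟨M3, ⟨h3, ?_, ?_, ?_, ?_⟩, by omega⟩
  · intro c v hv
    obtain ⟨c', h4⟩ := hM.keep c v hv
    obtain ⟨c'', h5⟩ := hkeep c' v (by rw [h4]; exact hv)
    exact ⟨c'', by rw [h5, h4]⟩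
  · intro x y hxy hxy3
    obtain ⟨h4, h5⟩ := hunc3 x y hxy3 hxy
    refine hunc3' _ _ (hxy.iota hS h.col.com) (hM.io x y hxy h4) ?_
    rintro (⟨h6, h7⟩ | ⟨h6, h7⟩ | ⟨h6, h7⟩ | ⟨h6, h7⟩)
    · exact h5 (Or.inr (Or.inr (Or.inl ⟨hS.eq_iff.1 h6, hS.eq_iff.1 h7⟩)))
    · exact h5 (Or.inr (Or.inr (Or.inr ⟨hS.eq_iff.1 h6, hS.eq_iff.1 h7⟩)))
    · exact h5 (Or.inl ⟨hS.inj h6, hS.inj h7⟩)
    · exact h5 (Or.inr (Or.inl ⟨hS.inj h6, hS.inj h7⟩))
  · intro x y hxy hxy3 v hv
    obtain ⟨h4, h5⟩ := hunc3 x y hxy3 hxy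
    have hsame := hM.same x y hxy h4 v hv
    -- the chains are disjoint if the colour is one of the two colours
    have hdis : ∀ s t : V, Unc A ι m s t → K ι m r s t = K ι m r p q → E4 ι p q s t →
        r x y = r s t → v ∉ K ι m r p q := by
      intro s t hst hK hE heq hvK
      have hne : x ≠ s := by
        rintro rfl
        have h6 : y = t := hD.inj hxy hst heq
        rw [h6] at h5
        exact h5 hE
      have hne' : x ≠ ι s := by
        rintro rfl
        have h6 : Unc A ι m s (ι y) := by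
          have := hxy.iota hS h.col.com
          rwa [hS.inv] at this
        have h7 : r s (ι y) = r s t := by
          have := hD.rio h6
          rw [hS.inv] at this
          rw [← this, heq]
        have h8 : ι y = t := hD.inj h6 hst h7
        apply h5
        rw [← h8] at hE
        rcases hE with ⟨e1, e2⟩ | ⟨e1, e2⟩ | ⟨e1, e2⟩ | ⟨e1, e2⟩
        · exact Or.inr (Or.inr (Or.inl ⟨by rw [e1], by rw [← e2, hS.inv]⟩))
        · exact Or.inr (Or.inr (Or.inr ⟨by rw [e1], by rw [← e2, hS.inv]⟩))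
        · exact Or.inl ⟨by rw [e1, hS.inv], hS.inj e2⟩
        · exact Or.inr (Or.inl ⟨by rw [e1, hS.inv], hS.inj e2⟩)
      refine h.disj (α := r x y) (v := v) hS hxy hst (hD.miss hxy)
        (hD.miss (hxy.symm hS h.col.pc)) ?_ (hD.miss (hst.symm hS h.col.pc)) hne hne' hv ?_
      · rw [heq]
        exact hD.miss hst
      · rw [heq]
        rw [← hK] at hvK
        exact hvK
    by_cases e1 : r x y = r p q
    · rw [hout _ v (hdis p q hu rfl (Or.inl ⟨rfl, rfl⟩) e1), hsame]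
    by_cases e2 : r x y = r q p
    · rw [hout _ v (hdis q p hu' (hD.K_symm hS h hu) (Or.inr (Or.inl ⟨rfl, rfl⟩)) e2), hsame]
    rw [hother _ e1 e2, hsame]
  · intro c v hcv hR
    have h4 := hM.free c v hcv hR
    have hκ : ∀ s t : V, Unc A ι m s t → c = r s t → v ∉ K ι m r s t := by
      intro s t hst hc hvK
      rcases hD.end_K hS h hst hvK (by rw [← hc, hcv]) with h5 | h5
      · refine hR t ?_ ?_
        · rw [h5]; exact hst
        · rw [h5, hc]
      · refine hR (ι t) ?_ ?_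
        · rw [h5]; exact hst.iota hS h.col.com
        · rw [h5, hD.rio hst, hc]
    by_cases e1 : c = r p q
    · rw [hout c v (hκ p q hu e1), h4]
    by_cases e2 : c = r q p
    · have h5 := hκ q p hu' e2
      rw [hD.K_symm hS h hu] at h5
      rw [hout c v h5, h4]
    rw [hother c e1 e2, h4]

/-- **Edge colourings of graphs with an involution without fixed points.** -/
theorem exists_colouring (hS : Sys A ι) [Nonempty V]
    (hd : ∀ v, {w | A v w ∧ w ≠ ι v}.ncard + 1 ≤ Fintype.card C) :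
    ∃ (M : C → V → V) (ρ : V → C), PC A ι M ∧ (∀ v w, A v w → w ≠ ι v → ∃ c, M c v = w) ∧
      (∀ v, ρ (ι v) = ρ v) ∧ ∀ v, M (ρ v) v = v := by
  classical
  obtain ⟨m, r, h, hD⟩ := exists_full (C := C) hS hd
  have h0 : St A ι m r m := ⟨h.col.pc, fun c v _ => ⟨c, rfl⟩,
    fun p q hu _ => (hu.iota hS h.col.com).unc, fun _ _ _ _ _ _ => rfl, fun _ _ h1 _ => h1⟩
  obtain ⟨M, hM, hmax⟩ := exists_max_image
    ((univ : Finset (C → V → V)).filter fun M => St A ι m r M) (fun M => N M)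
    ⟨m, mem_filter.2 ⟨mem_univ _, h0⟩⟩
  have hM := (mem_filter.1 hM).2
  have hfull : ∀ p q, Unc A ι m p q → ∃ c, M c p = q := by
    intro p q hu
    by_contra hcon
    push Not at hcon
    obtain ⟨M', hM', hlt⟩ := hM.step hS h hD hu hcon
    have := hmax M' (mem_filter.2 ⟨mem_univ _, hM'⟩)
    omega
  let X : V → Set C := fun v => {c | m c v = v ∧ ∀ w, Unc A ι m v w → r v w ≠ c}
  have hXne : ∀ v, (X v).Nonempty := fun v => hD.free h.col (hd v)
  have hXsub : ∀ v, X v ⊆ X (ι v) := by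
    rintro v c ⟨h1, h2⟩
    refine ⟨by rw [h.col.com, h1], fun w hw => ?_⟩
    have h3 : Unc A ι m v (ι w) := by
      have := hw.iota hS h.col.com
      rwa [hS.inv] at this
    have h4 := hD.rio h3
    rw [hS.inv] at h4
    rw [h4]
    exact h2 _ h3
  have hX : ∀ v, X (ι v) = X v := by
    intro v
    refine Set.Subset.antisymm ?_ (hXsub v)
    have := hXsub (ι v)
    rwa [hS.inv] at this
  have hsome : ∀ (S T : Set C) (hS : S.Nonempty) (hT : T.Nonempty), S = T → hS.some = hT.some := by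
    rintro S T h1 h2 rfl
    rfl
  refine ⟨M, fun v => (hXne v).some, hM.pc, ?_, ?_, ?_⟩
  · intro v w hvw hne
    by_cases h1 : ∃ c, m c v = w
    · obtain ⟨c, h1⟩ := h1
      have h2 : m c v ≠ v := by
        rw [h1]
        rintro rfl
        exact hS.irr _ hvw
      obtain ⟨c', h3⟩ := hM.keep c v h2
      exact ⟨c', by rw [h3, h1]⟩
    · push Not at h1
      exact hfull v w ⟨hvw, hne, h1⟩
  · intro v
    exact hsome _ _ _ _ (hX v)
  · intro v
    have h1 := (hXne v).some_mem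
    exact hM.free _ v h1.1 h1.2

end Pool.Agent.T9h84.WR

namespace Pool.Agent.T9h84.WR

open Pool.Agent.X76.Wr

/-- A graph with an automorphism `ι` of order two without fixed points can be coloured with `D`
colours if each vertex `v` has at most `D - 1` neighbours different from `ι v`. -/
theorem inv_EC {V : Type} [Fintype V] (H : SimpleGraph V) (ι : V → V) (hι : ∀ v, ι (ι v) = v)
    (hne : ∀ v, ι v ≠ v) (haut : ∀ v w, H.Adj v w → H.Adj (ι v) (ι w)) (D : ℕ)
    (hd : ∀ v, {w | H.Adj v w ∧ w ≠ ι v}.ncard + 1 ≤ D) : EC D H := by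
  classical
  rcases isEmpty_or_nonempty V with hV | hV
  · exact ⟨fun _ _ => 0, fun u => (hV.false u).elim⟩
  have hS : Sys H.Adj ι := ⟨fun h => h.symm, H.loopless.irrefl, hι, hne, fun h => haut _ _ h⟩
  obtain ⟨M, ρ, hM, hall, hρ, hρM⟩ := exists_colouring (C := Fin D) hS (by simpa using hd)
  let c : V → V → ℕ := fun v w => if w = ι v then (ρ v : ℕ) else if h : w = v then 0 else
    if h : ∃ c : Fin D, M c v = w then (h.choose : ℕ) else 0
  have hc1 : ∀ v, c v (ι v) = ρ v := fun v => if_pos rfl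
  have hc2 : ∀ v w, H.Adj v w → w ≠ ι v → ∃ d : Fin D, M d v = w ∧ c v w = d := by
    intro v w hvw hwv
    have h1 : ∃ c : Fin D, M c v = w := hall v w hvw hwv
    refine ⟨h1.choose, h1.choose_spec, ?_⟩
    have h2 : w ≠ v := (H.ne_of_adj hvw).symm
    show (if w = ι v then (ρ v : ℕ) else if h : w = v then 0 else
      if h : ∃ c : Fin D, M c v = w then (h.choose : ℕ) else 0) = _
    rw [if_neg hwv, dif_neg h2, dif_pos h1]
  refine ⟨c, fun v w hvw => ?_⟩
  by_cases h1 : w = ι v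
  · subst h1
    refine ⟨?_, ?_, ?_⟩
    · rw [hc1]
      have := hc1 (ι v)
      rw [hι] at this
      rw [this, hρ]
    · rw [hc1]
      exact (ρ v).2
    · intro u hvu hu
      obtain ⟨d, h2, h3⟩ := hc2 v u hvu (Ne.symm hu)
      rw [hc1, h3]
      intro h4
      have h5 : ρ v = d := Fin.ext h4
      rw [← h5, hρM] at h2
      exact H.ne_of_adj hvu h2
  · obtain ⟨d, h2, h3⟩ := hc2 v w hvw h1
    have h1' : v ≠ ι w := fun h4 => h1 (by rw [h4, hι])
    obtain ⟨d', h2', h3'⟩ := hc2 w v hvw.symm h1'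
    have h4 : d = d' := by
      refine hM.unq d d' v ?_ ?_
      · rw [h2, hM.eq h2']
      · rw [h2]
        exact (H.ne_of_adj hvw).symm
    refine ⟨?_, ?_, ?_⟩
    · rw [h3, h3', h4]
    · rw [h3]
      exact d.2
    · intro u hvu hu
      rw [h3]
      by_cases h5 : u = ι v
      · subst h5
        rw [hc1]
        intro h6
        have h7 : d = ρ v := Fin.ext h6
        rw [h7, hρM] at h2
        exact H.ne_of_adj hvw h2
      · obtain ⟨d'', h6, h7⟩ := hc2 v u hvu h5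
        rw [h7]
        intro h8
        have h9 : d = d'' := Fin.ext h8
        rw [h9, h6] at h2
        exact hu h2.symm

end Pool.Agent.T9h84.WR
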