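import Pool.Agent.T9h84.WR.Sym

set_option autoImplicit false
set_option linter.unusedSectionVars false

/-!
# Rotation of an uncoloured edge around an odd cycle, and disjointness of Kempe chains
-/

namespace Pool.Agent.T9h84.WR

open Finset

variable {V C : Type*} [DecidableEq V] [Fintype V] [Fintype C] [DecidableEq C]
  {A : V → V → Prop} {ι : V → V} {m : C → V → V} {a b v w z : V} {α β : C}

theorem Mx.rotate (hS : Sys A ι) (h : Mx A ι m) (hu : Unc A ι m a b) (ha : m α a = a)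
    (hb : m β b = b) (hw : w ∈ cl ι (m α) (m β) a) :
    ∃ m', Mx A ι m' ∧ (∀ c, c ≠ α → c ≠ β → m' c = m c) ∧
      (∀ c v, v ∉ cl ι (m α) (m β) a → m' c v = m c v) ∧ m' α w = w := by
  by_cases hαw : m α w = w
  · exact ⟨m, h, fun _ _ _ => rfl, fun _ _ _ => rfl, hαw⟩
  have hαβ : α ≠ β := by
    rintro rfl
    exact h.no hS hu ha hb
  have hab := hu.ne hS
  obtain ⟨w', hw'⟩ : ∃ w', m α w = w' := ⟨_, rfl⟩
  have hww' : w ≠ w' := fun h1 => hαw (hw'.trans h1.symm)
  have hw'w := h.col.pc.eq hw'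
  have hnio : w' ≠ ι w := by
    rw [← hw']
    exact h.col.pc.nio α w
  have hb' : b ∈ cl ι (m α) (m β) a := h.kempe hS hu ha hb
  -- `a` is different from the ends of the removed edges
  have haw : a ≠ w := by
    rintro rfl
    exact hαw ha
  have haw' : a ≠ w' := by
    rintro rfl
    exact hww' (hw'w.symm.trans ha)
  have haιw : a ≠ ι w := by
    rintro rfl
    rw [h.col.com] at ha
    exact hαw (hS.inj ha)
  have haιw' : a ≠ ι w' := by
    rintro rfl
    rw [h.col.com, hw'w] at ha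
    exact hww' (hS.inj ha)
  have h1 : Col A ι (tt ι m α w w') := Col.rem hS h.col hw' hww'
  have h1N : N (tt ι m α w w') + 4 = N m := N_tt_rem hS h.col hw' hww'
  set m1 := tt ι m α w w' with hm1
  have h1ne : ∀ c, c ≠ α → m1 c = m c := fun c hc => tt_ne hc
  have h1β : m1 β = m β := h1ne β hαβ.symm
  have h1w : m1 α w = w := by rw [hm1, tt_1 hS hww' hnio, hw'w]
  have h1w' : m1 α w' = w' := by rw [hm1, tt_2 hS hww' hnio, hw']
  have h1o : ∀ c v, v ≠ w → v ≠ w' → v ≠ ι w → v ≠ ι w' → m1 c v = m c v :=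
    fun c v h1 h2 h3 h4 => tt_other h1 h2 h3 h4
  have h1a : ∀ c, m1 c a = m c a := fun c => h1o c a haw haw' haιw haιw'
  have hu1 : Unc A ι m1 a b := ⟨hu.adj, hu.nio, fun c => by rw [h1a]; exact hu.unc c⟩
  have hιι : ∀ {x y : V}, x ≠ ι y → ι x ≠ y := fun h2 h3 => h2 (hS.eq_iff.1 h3)
  -- the closure in the colouring without the edge `w w'`
  have hbQ : b ∉ cl ι (m1 α) (m1 β) a := by
    intro hbQ
    have key : ∀ u, u ≠ a → u ≠ ι a → m1 α u = u → u ∉ cl ι (m1 α) (m1 β) a := by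
      intro u hua hua' hu1 huQ
      have h2 := Col.ends hS h1 ((h1a α).trans ha) hbQ huQ hab.symm hu.nio hua hua'
        (Or.inr (by rw [h1β, hb])) (Or.inl hu1)
      have h3 : m1 β u = u := by
        rcases h2 with rfl | rfl
        · rw [h1β, hb]
        · rw [h1.com, h1β, hb]
      have h4 := cl.trivial hS.inv hu1 h3 (cl.symm (h1.com α) (h1.com β) hS.inv (h1.pc.inv α)
        (h1.pc.inv β) huQ)
      rcases h4 with h4 | h4
      · exact hua h4.symm
      · exact hua' (by rw [h4, hS.inv])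
    have hwQ := key w haw.symm (fun h2 => haιw (by rw [h2, hS.inv])) h1w
    have hw'Q := key w' haw'.symm (fun h2 => haιw' (by rw [h2, hS.inv])) h1w'
    apply hwQ
    refine cl.min hS.inv hw (cl.self _ _ _ _) ?_ ?_ ?_
    · intro v hv
      have hne : ∀ u, u ∉ cl ι (m1 α) (m1 β) a → v ≠ u ∧ v ≠ ι u := by
        intro u hu
        refine ⟨?_, ?_⟩
        · rintro rfl
          exact hu hv
        · rintro rfl
          exact hu ((cl.iota_iff hS.inv).1 hv)
      have h2 := hne w hwQ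
      have h3 := hne w' hw'Q
      rw [← h1o α v h2.1 h3.1 h2.2 h3.2]
      exact cl.left (h1.com α) hv
    · intro v hv
      rw [← h1β]
      exact cl.right (h1.com β) hv
    · intro v hv
      exact cl.iota hS.inv hv
  -- closures in `m1` are contained in the closure in `m`
  have hsub : ∀ u, u ∈ cl ι (m α) (m β) a → ∀ v, v ∈ cl ι (m1 α) (m1 β) u →
      v ∈ cl ι (m α) (m β) a := by
    intro u hu v hv
    refine cl.min hS.inv hv hu ?_ ?_ ?_
    · intro v hv
      by_cases h2 : v = w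
      · rw [h2, h1w]; exact hw
      by_cases h3 : v = w'
      · rw [h3, h1w', ← hw']; exact cl.left (h.col.com α) hw
      by_cases h4 : v = ι w
      · rw [h4, h1.com, h1w]; exact cl.iota hS.inv hw
      by_cases h5 : v = ι w'
      · rw [h5, h1.com, h1w', ← hw']; exact cl.iota hS.inv (cl.left (h.col.com α) hw)
      rw [h1o α v h2 h3 h4 h5]
      exact cl.left (h.col.com α) hv
    · intro v hv
      rw [h1β]
      exact cl.right (h.col.com β) hv
    · intro v hv
      exact cl.iota hS.inv hv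
  have hout : ∀ c v, v ∉ cl ι (m α) (m β) a → m1 c v = m c v := by
    intro c v hv
    refine h1o c v ?_ ?_ ?_ ?_
    · rintro rfl; exact hv hw
    · rintro rfl; rw [← hw'] at hv; exact hv (cl.left (h.col.com α) hw)
    · rintro rfl; exact hv (cl.iota hS.inv hw)
    · rintro rfl; rw [← hw'] at hv; exact hv (cl.iota hS.inv (cl.left (h.col.com α) hw))
  have hquad : ∀ v, v ∉ cl ι (m α) (m β) a → v ≠ a ∧ v ≠ b ∧ v ≠ ι a ∧ v ≠ ι b := by
    intro v hv
    refine ⟨?_, ?_, ?_, ?_⟩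
    · rintro rfl; exact hv (cl.self _ _ _ _)
    · rintro rfl; exact hv hb'
    · rintro rfl; exact hv (cl.iota hS.inv (cl.self _ _ _ _))
    · rintro rfl; exact hv (cl.iota hS.inv hb')
  by_cases hwQ : w ∈ cl ι (m1 α) (m1 β) a
  · -- exchange the colours at `b`
    have hsym : ∀ x y, x ∈ cl ι (m1 α) (m1 β) y → y ∈ cl ι (m1 α) (m1 β) x := fun x y hxy =>
      cl.symm (h1.com α) (h1.com β) hS.inv (h1.pc.inv α) (h1.pc.inv β) hxy
    have haQ : a ∉ cl ι (m1 α) (m1 β) b := fun h2 => hbQ (hsym _ _ h2)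
    have hwQ' : w ∉ cl ι (m1 α) (m1 β) b := fun h2 =>
      hbQ (cl.trans (h1.com α) (h1.com β) hS.inv hwQ (hsym _ _ h2))
    have h2 : Col A ι (sw m1 α β (cl ι (m1 α) (m1 β) b)) := Col.swap hS h1
    have h2N : N (sw m1 α β (cl ι (m1 α) (m1 β) b)) = N m1 := N_sw
    set m2 := sw m1 α β (cl ι (m1 α) (m1 β) b) with hm2
    have h2a : m2 α a = a := by rw [hm2, sw_out haQ, h1a, ha]
    have h2b : m2 α b = b := by rw [hm2, sw_left (cl.self _ _ _ _), h1β, hb]
    have hu2 : Unc A ι m2 a b := hu1.sw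
    refine ⟨tt ι m2 α a b, h.of (Col.add hS h2 hu2 h2a h2b) ?_, ?_, ?_, ?_⟩
    · rw [N_tt_add hS h2 hu2 h2a h2b]
      omega
    · intro c h3 h4
      rw [tt_ne h3, hm2, sw_ne h3 h4, h1ne c h3]
    · intro c v hv
      obtain ⟨h3, h4, h5, h6⟩ := hquad v hv
      rw [tt_other h3 h4 h5 h6, hm2, sw_out (fun h7 => hv (hsub b hb' v h7)), hout c v hv]
    · rw [tt_other haw.symm (fun h3 => hbQ (by rw [h3] at hwQ; exact hwQ)) (fun h3 => haιw (by rw [h3, hS.inv]))
        (fun h3 => hbQ (by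
          rw [h3] at hwQ
          exact (cl.iota_iff hS.inv).1 hwQ)), hm2, sw_out hwQ', h1w]
  · have h2 : Col A ι (sw m1 α β (cl ι (m1 α) (m1 β) a)) := Col.swap hS h1
    have h2N : N (sw m1 α β (cl ι (m1 α) (m1 β) a)) = N m1 := N_sw
    set m2 := sw m1 α β (cl ι (m1 α) (m1 β) a) with hm2
    have h2a : m2 β a = a := by rw [hm2, sw_right (cl.self _ _ _ _), h1a, ha]
    have h2b : m2 β b = b := by rw [hm2, sw_out hbQ, h1β, hb]
    have hu2 : Unc A ι m2 a b := hu1.sw
    refine ⟨tt ι m2 β a b, h.of (Col.add hS h2 hu2 h2a h2b) ?_, ?_, ?_, ?_⟩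
    · rw [N_tt_add hS h2 hu2 h2a h2b]
      omega
    · intro c h3 h4
      rw [tt_ne h4, hm2, sw_ne h3 h4, h1ne c h3]
    · intro c v hv
      obtain ⟨h3, h4, h5, h6⟩ := hquad v hv
      rw [tt_other h3 h4 h5 h6, hm2,
        sw_out (fun h7 => hv (hsub a (cl.self _ _ _ _) v h7)), hout c v hv]
    · rw [tt_ne hαβ, hm2, sw_out hwQ, h1w]

/-- Kempe chains of different uncoloured edges with a common colour are disjoint. -/
theorem Mx.disj (hS : Sys A ι) (h : Mx A ι m) {x1 y1 x2 y2 : V} {β1 β2 : C}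
    (hu1 : Unc A ι m x1 y1) (hu2 : Unc A ι m x2 y2) (h1 : m α x1 = x1) (h2 : m β1 y1 = y1)
    (h3 : m α x2 = x2) (h4 : m β2 y2 = y2) (hne : x1 ≠ x2) (hne' : x1 ≠ ι x2)
    (hv1 : v ∈ cl ι (m α) (m β1) x1) (hv2 : v ∈ cl ι (m α) (m β2) x2) : False := by
  classical
  have hαβ1 : β1 ≠ α := by
    rintro rfl
    exact h.no hS hu1 h1 h2
  have hy2 : y2 ∈ cl ι (m α) (m β2) x2 := h.kempe hS hu2 h3 h4
  -- the first vertex is not in the second chain
  have hx1 : x1 ∉ cl ι (m α) (m β2) x2 := by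
    intro h5
    have h6 := Col.ends hS h.col h3 hy2 h5 (hu2.ne hS).symm hu2.nio hne hne' (Or.inr h4)
      (Or.inl h1)
    have h7 : m α y2 = y2 := by
      rcases h6 with h6 | h6
      · rw [← h6, h1]
      · apply hS.inj
        rw [← h.col.com, ← h6, h1]
    exact h.no hS hu2 h3 h7
  have hβ : β1 ≠ β2 := by
    rintro rfl
    apply hx1
    exact cl.trans (h.col.com α) (h.col.com β1) hS.inv hv2
      (cl.symm (h.col.com α) (h.col.com β1) hS.inv (h.col.pc.inv α) (h.col.pc.inv β1) hv1)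
  set K := cl ι (m α) (m β2) x2 with hK
  have hKα : ∀ v, m α v ∈ K ↔ v ∈ K := by
    intro v
    refine ⟨fun h5 => ?_, fun h5 => cl.left (h.col.com α) h5⟩
    have := cl.left (h.col.com α) h5
    rwa [h.col.pc.inv] at this
  have hKι : ∀ v, ι v ∈ K ↔ v ∈ K := fun v => cl.iota_iff hS.inv
  let g0 : V → V := fun v => if v ∈ K then v else m α v
  have g0in : ∀ v, v ∈ K → g0 v = v := fun v hv => if_pos hv
  have g0out : ∀ v, v ∉ K → g0 v = m α v := fun v hv => if_neg hv
  have g0inv : ∀ v, g0 (g0 v) = v := by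
    intro v
    by_cases hv : v ∈ K
    · rw [g0in v hv, g0in v hv]
    · rw [g0out v hv, g0out _ (fun h5 => hv ((hKα v).1 h5)), h.col.pc.inv]
  have g0com : ∀ v, g0 (ι v) = ι (g0 v) := by
    intro v
    by_cases hv : v ∈ K
    · rw [g0in v hv, g0in _ ((hKι v).2 hv)]
    · rw [g0out v hv, g0out _ (fun h5 => hv ((hKι v).1 h5)), h.col.com]
  have g0x1 : g0 x1 = x1 := by rw [g0out x1 hx1, h1]
  -- a common vertex which can be reached
  obtain ⟨w, hwP, hwK⟩ : ∃ w, w ∈ cl ι g0 (m β1) x1 ∧ w ∈ K := by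
    by_contra hcon
    push Not at hcon
    refine hcon v ?_ hv2
    refine cl.min hS.inv hv1 (cl.self _ _ _ _) ?_ ?_ ?_
    · intro u hu
      rw [← g0out u (hcon u hu)]
      exact cl.left g0com hu
    · intro u hu
      exact cl.right (h.col.com β1) hu
    · intro u hu
      exact cl.iota hS.inv hu
  have hKx : ∀ {u}, u ∈ K → u ≠ x1 ∧ u ≠ ι x1 := by
    intro u hu
    refine ⟨?_, ?_⟩
    · rintro rfl; exact hx1 hu
    · rintro rfl; exact hx1 ((hKι _).1 hu)
  have hends : ∀ {u u' : V}, u ∈ cl ι g0 (m β1) x1 → u' ∈ cl ι g0 (m β1) x1 → u ≠ x1 → u ≠ ι x1 →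
      u' ≠ x1 → u' ≠ ι x1 → (g0 u = u ∨ m β1 u = u) → (g0 u' = u' ∨ m β1 u' = u') →
      u' = u ∨ u' = ι u := fun hu hu' e1 e2 e3 e4 e5 e6 =>
    cl.ends hS.inv g0com (h.col.com β1) g0inv (h.col.pc.inv β1) g0x1 hu hu' e1 e2 e3 e4 e5 e6
  obtain ⟨m', hm', hc', ho', hw'⟩ := h.rotate hS hu2 h3 h4 hwK
  have hsub : ∀ u, u ∈ cl ι (m' α) (m' β1) x1 → u ∈ cl ι g0 (m β1) x1 := by
    intro u hu
    refine cl.min hS.inv hu (cl.self _ _ _ _) ?_ ?_ ?_
    · intro u hu
      by_cases huK : u ∈ K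
      · have h5 := hKx huK
        have h6 := hKx hwK
        have h7 := hends hwP hu h6.1 h6.2 h5.1 h5.2 (Or.inl (g0in w hwK)) (Or.inl (g0in u huK))
        have h8 : m' α u = u := by
          rcases h7 with rfl | rfl
          · exact hw'
          · rw [hm'.col.com, hw']
        rw [h8]
        exact hu
      · rw [ho' α u huK, ← g0out u huK]
        exact cl.left g0com hu
    · intro u hu
      rw [hc' β1 hαβ1 hβ]
      exact cl.right (h.col.com β1) hu
    · intro u hu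
      exact cl.iota hS.inv hu
  have hu1' : Unc A ι m' x1 y1 := ⟨hu1.adj, hu1.nio, fun c => by rw [ho' c x1 hx1]; exact hu1.unc c⟩
  have hy1 := hsub y1 (hm'.kempe hS hu1' (by rw [ho' α x1 hx1, h1])
    (by rw [hc' β1 hαβ1 hβ, h2]))
  have h6 := hKx hwK
  have h7 := hends hy1 hwP (hu1.ne hS).symm hu1.nio h6.1 h6.2 (Or.inr h2) (Or.inl (g0in w hwK))
  have h8 : m β1 w = w := by
    rcases h7 with rfl | rfl
    · exact h2
    · rw [h.col.com, h2]
  have h9 := cl.trivial hS.inv (g0in w hwK) h8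
    (cl.symm g0com (h.col.com β1) hS.inv g0inv (h.col.pc.inv β1) hwP)
  rcases h9 with h9 | h9
  · exact h6.1 h9.symm
  · exact h6.2 (by rw [h9, hS.inv])

end Pool.Agent.T9h84.WR
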