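import Pool.Agent.T9h84.WR.Col

set_option autoImplicit false
set_option linter.unusedSectionVars false

/-!
# Operations on colourings which are invariant under the involution
-/

namespace Pool.Agent.T9h84.WR

open Finset

/-- partial colourings which are invariant under `ι` -/
structure Col {V C : Type*} (A : V → V → Prop) (ι : V → V) (m : C → V → V) : Prop where
  pc : PC A ι m
  com : Com ι m

section

variable {V C : Type*} [DecidableEq V] [DecidableEq C] {A : V → V → Prop} {ι : V → V}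
  {m : C → V → V} {a b v w z : V} {c c' : C}

/-- toggle `a b` and `ι a`, `ι b` -/
def tt (ι : V → V) (m : C → V → V) (c : C) (a b : V) : C → V → V :=
  tg (tg m c a b) c (ι a) (ι b)

theorem tt_ne (h : c' ≠ c) : tt ι m c a b c' = m c' := by
  rw [tt, tg_ne h, tg_ne h]

theorem tt_other (h1 : v ≠ a) (h2 : v ≠ b) (h3 : v ≠ ι a) (h4 : v ≠ ι b) :
    tt ι m c a b c' v = m c' v := by
  rw [tt, tg_other h3 h4, tg_other h1 h2]

section quad

variable (hS : Sys A ι) (hab : a ≠ b) (hab' : b ≠ ι a)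

include hS hab hab'

theorem tt_1 : tt ι m c a b c a = m c b := by
  rw [tt, tg_other (hS.ne a).symm (fun h => hab' (by rw [h, hS.inv])), tg_left]

theorem tt_2 : tt ι m c a b c b = m c a := by
  rw [tt, tg_other hab' (hS.ne b).symm, tg_right]

theorem tt_3 : tt ι m c a b c (ι a) = m c (ι b) := by
  rw [tt, tg_left, tg_other (fun h => hab' (by rw [← h, hS.inv])) (hS.ne b)]

theorem tt_4 : tt ι m c a b c (ι b) = m c (ι a) := by
  rw [tt, tg_right, tg_other (hS.ne a) hab'.symm]

theorem tt_com (hc : Com ι m) : Com ι (tt ι m c a b) := by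
  intro c' v
  by_cases h : c' = c
  · subst h
    by_cases h1 : v = a
    · subst h1
      rw [tt_1 hS hab hab', tt_3 hS hab hab', hc]
    by_cases h2 : v = b
    · subst h2
      rw [tt_2 hS hab hab', tt_4 hS hab hab', hc]
    by_cases h3 : v = ι a
    · subst h3
      rw [hS.inv, tt_1 hS hab hab', tt_3 hS hab hab', hc, hS.inv]
    by_cases h4 : v = ι b
    · subst h4
      rw [hS.inv, tt_2 hS hab hab', tt_4 hS hab hab', hc, hS.inv]
    rw [tt_other h1 h2 h3 h4, tt_other, hc]
    · exact fun h => h3 (hS.eq_iff.1 h)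
    · exact fun h => h4 (hS.eq_iff.1 h)
    · exact fun h => h1 (hS.inj h)
    · exact fun h => h2 (hS.inj h)
  · rw [tt_ne h, hc]

end quad

/-- adding an edge and its image -/
theorem Col.add (hS : Sys A ι) (h : Col A ι m) (hu : Unc A ι m a b) (ha : m c a = a)
    (hb : m c b = b) : Col A ι (tt ι m c a b) := by
  have hab := hu.ne hS
  refine ⟨?_, tt_com hS hab hu.nio h.com⟩
  have h1 := h.pc.add hS hu ha hb
  refine h1.add hS ?_ ?_ ?_
  · have hu' := hu.iota hS h.com
    refine ⟨hu'.adj, hu'.nio, fun c' => ?_⟩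
    rw [tg_other (hS.ne a) hu.nio.symm]
    exact hu'.unc c'
  · rw [tg_other (hS.ne a) hu.nio.symm, h.com, ha]
  · rw [tg_other (fun h => hu.nio (by rw [← h, hS.inv])) (hS.ne b), h.com, hb]

/-- removing an edge and its image -/
theorem Col.rem (hS : Sys A ι) (h : Col A ι m) (ha : m c a = b) (hab : a ≠ b) :
    Col A ι (tt ι m c a b) := by
  have hab' : b ≠ ι a := by
    rw [← ha]
    exact h.pc.nio c a
  refine ⟨?_, tt_com hS hab hab' h.com⟩
  refine (h.pc.rem ha hS.ne).rem ?_ hS.ne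
  rw [tg_other (hS.ne a) hab'.symm, h.com, ha]

variable [Fintype V] [Fintype C]

theorem N_tt_add (hS : Sys A ι) (h : Col A ι m) (hu : Unc A ι m a b) (ha : m c a = a)
    (hb : m c b = b) : N (tt ι m c a b) = N m + 4 := by
  have hab := hu.ne hS
  rw [tt, N_add, N_add hab ha hb]
  · exact fun h => hab (hS.inj h)
  · rw [tg_other (hS.ne a) hu.nio.symm, h.com, ha]
  · rw [tg_other (fun h => hu.nio (by rw [← h, hS.inv])) (hS.ne b), h.com, hb]

theorem N_tt_rem (hS : Sys A ι) (h : Col A ι m) (ha : m c a = b) (hab : a ≠ b) :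
    N (tt ι m c a b) + 4 = N m := by
  have hab' : b ≠ ι a := by
    rw [← ha]
    exact h.pc.nio c a
  have h1 := N_rem h.pc hab ha
  have h2 := N_rem (a := ι a) (b := ι b) (c := c) (h.pc.rem ha hS.ne)
    (fun h => hab (hS.inj h)) (by rw [tg_other (hS.ne a) hab'.symm, h.com, ha])
  rw [tt]
  omega

/-- a step: the edge from `a` to `z = m c a` loses its colour `c`, which is given to `a b` -/
theorem Col.step (hS : Sys A ι) (h : Col A ι m) (hu : Unc A ι m a b) (hb : m c b = b)
    (hz : m c a = z) (hza : z ≠ a) : ∃ m', Col A ι m' ∧ N m' = N m ∧ (∀ c' ≠ c, m' c' = m c') ∧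
      m' c a = b ∧ m' c b = a ∧ m' c (ι a) = ι b ∧ m' c (ι b) = ι a ∧ m' c z = z ∧
      m' c (ι z) = ι z ∧ (∀ v, v ≠ a → v ≠ b → v ≠ ι a → v ≠ ι b → v ≠ z → v ≠ ι z →
        m' c v = m c v) ∧ Unc A ι m' a z := by
  have hab := hu.ne hS
  have hab' := hu.nio
  have hza' : z ≠ ι a := by
    rw [← hz]
    exact h.pc.nio c a
  have hzb : z ≠ b := by
    rw [← hz]
    exact hu.unc c
  have hzc := h.pc.eq hz
  have hzb' : z ≠ ι b := by
    rintro rfl
    rw [h.com, hb] at hzc
    exact hab' (by rw [← hzc, hS.inv])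
  have h1 := Col.rem hS h hz hza.symm
  have h1N := N_tt_rem hS h hz hza.symm
  have hu1 : Unc A ι (tt ι m c a z) a b := by
    refine ⟨hu.adj, hu.nio, fun c' h2 => ?_⟩
    by_cases h3 : c' = c
    · subst h3
      rw [tt_1 hS hza.symm hza', hzc] at h2
      exact hab h2
    · rw [tt_ne h3] at h2
      exact hu.unc c' h2
  have ha1 : tt ι m c a z c a = a := by rw [tt_1 hS hza.symm hza', hzc]
  have hb1 : tt ι m c a z c b = b := by
    rw [tt_other hab.symm hzb.symm hab' (fun h => hzb' (by rw [h, hS.inv])), hb]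
  have h2 := Col.add hS h1 hu1 ha1 hb1
  have h2N := N_tt_add hS h1 hu1 ha1 hb1
  have hma : tt ι (tt ι m c a z) c a b c a = b := by rw [tt_1 hS hab hab', hb1]
  refine ⟨_, h2, by omega, ?_, hma, ?_, ?_, ?_, ?_, ?_, ?_, ?_⟩
  · intro c' h3
    rw [tt_ne h3, tt_ne h3]
  · rw [tt_2 hS hab hab', ha1]
  · rw [tt_3 hS hab hab', h1.com, hb1]
  · rw [tt_4 hS hab hab', h1.com, ha1]
  · rw [tt_other hza hzb hza' hzb', tt_2 hS hza.symm hza', hz]
  · rw [tt_other (fun h => hza' (by rw [← h, hS.inv])) (fun h => hzb' (by rw [← h, hS.inv]))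
      (fun h => hza (hS.inj h)) (fun h => hzb (hS.inj h)), tt_4 hS hza.symm hza', h.com, hz]
  · intro v h3 h4 h5 h6 h7 h8
    rw [tt_other h3 h4 h5 h6, tt_other h3 h7 h5 h8]
  · refine ⟨?_, hza', fun c' h3 => ?_⟩
    · have := h.pc.adj c a
      rw [hz] at this
      exact this hza
    · by_cases h4 : c' = c
      · subst h4
        rw [hma] at h3
        exact hzb h3.symm
      · rw [tt_ne h4, tt_ne h4] at h3
        have := h.pc.unq c' c a (by rw [h3, hz]) (by rw [h3]; exact hza)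
        exact h4 this

end

section max

variable {V C : Type*} [DecidableEq V] [Fintype V] [Fintype C]

/-- a colouring with the largest number of coloured edges -/
structure Mx (A : V → V → Prop) (ι : V → V) (m : C → V → V) : Prop where
  col : Col A ι m
  max : ∀ m' : C → V → V, Col A ι m' → N m' ≤ N m

variable {A : V → V → Prop} {ι : V → V} {m : C → V → V} {a b v w z : V} {α β : C}

theorem Mx.of {m' : C → V → V} (h : Mx A ι m) (h' : Col A ι m') (hN : N m' = N m) :
    Mx A ι m' := ⟨h', fun m'' h'' => hN ▸ h.max m'' h''⟩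

theorem Mx.no [DecidableEq C] (hS : Sys A ι) (h : Mx A ι m) {c : C} (hu : Unc A ι m a b)
    (ha : m c a = a) (hb : m c b = b) : False := by
  have h1 := h.max _ (Col.add hS h.col hu ha hb)
  have h2 := N_tt_add hS h.col hu ha hb
  omega

theorem Mx.exists [Nonempty V] [DecidableEq C] (hS : Sys A ι) : ∃ m : C → V → V, Mx A ι m := by
  classical
  have h0 : Col A ι (fun (_ : C) (v : V) => v) :=
    ⟨⟨fun _ _ => rfl, fun _ _ h => absurd rfl h, fun _ v h => hS.ne v h.symm,
      fun _ _ _ _ h => absurd rfl h⟩, fun _ _ => rfl⟩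
  have hne : ((univ : Finset (C → V → V)).filter fun m => Col A ι m).Nonempty :=
    ⟨_, mem_filter.2 ⟨mem_univ _, h0⟩⟩
  obtain ⟨m, hm, hmax⟩ := exists_max_image _ (fun m => N m) hne
  exact ⟨m, (mem_filter.1 hm).2, fun m' h' => hmax m' (mem_filter.2 ⟨mem_univ _, h'⟩)⟩

theorem Col.swap [DecidableEq C] (hS : Sys A ι) (h : Col A ι m) {x : V} :
    Col A ι (sw m α β (cl ι (m α) (m β) x)) :=
  ⟨h.pc.sw (fun _ hv => cl.left (h.com α) hv) (fun _ hv => cl.right (h.com β) hv),
    h.com.sw fun _ => cl.iota_iff hS.inv⟩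

/-- **Kempe chains** -/
theorem Mx.kempe [DecidableEq C] (hS : Sys A ι) (h : Mx A ι m) (hu : Unc A ι m a b)
    (ha : m α a = a) (hb : m β b = b) : b ∈ cl ι (m α) (m β) a := by
  by_contra hcon
  have h1 := h.of (Col.swap (α := α) (β := β) (x := a) hS h.col) N_sw
  refine h1.no hS (c := β) hu.sw ?_ ?_
  · rw [sw_right (cl.self _ _ _ _), ha]
  · rw [sw_out hcon, hb]

/-- ends of closures -/
theorem Col.ends [DecidableEq C] (hS : Sys A ι) (h : Col A ι m) (ha : m α a = a)
    (hv : v ∈ cl ι (m α) (m β) a) (hw : w ∈ cl ι (m α) (m β) a) (hva : v ≠ a) (hva' : v ≠ ι a)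
    (hwa : w ≠ a) (hwa' : w ≠ ι a) (hv' : m α v = v ∨ m β v = v) (hw' : m α w = w ∨ m β w = w) :
    w = v ∨ w = ι v :=
  cl.ends hS.inv (h.com α) (h.com β) (h.pc.inv α) (h.pc.inv β) ha hv hw hva hva' hwa hwa' hv' hw'

end max

end Pool.Agent.T9h84.WR
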